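import Pool.Agent.F5H.StmtsN
import Pool.Agent.Helper68_F5.Itp
import Pool.Agent.Helper96_DZ.J

/-!
MP_f5cbfa_nt, squad F5H, block N, row FXA, the frame half: `FRStmt`.  The form `A ∈ KM Q` is
`Q⁻² ‖ ‖²` in the frame `fr`, the lattice is `g = fr ∘ rc`, the volumes of the points seen by a pair
are compared in `ℂ³`.
-/

set_option autoImplicit false

open MeasureTheory

namespace Pool.Agent.F5H.BN

open Pool.Agent.BTL Pool.Agent.F5S Pool.Agent.F5H Pool.Agent.Helper48_F5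

/-- FR: the frame of a form -/
def FRStmt : Prop := ∃ a : ℕ, ∀ T Q : ℝ, 1 ≤ T → 2 ≤ Q → Q ^ a ≤ T ^ (1 / 100000 : ℝ) →
  ∀ A ∈ KM Q, ∃ g : ℤ × ℤ →+ ℂ, Helper68_F5.Sep 1 g ∧ H9.JG (Q ^ a) g ∧
    (∀ z : ℤ × ℤ, ‖rc z‖ ≤ ‖g z‖ ∧ ‖g z‖ ≤ Q ^ 3 * ‖rc z‖) ∧
    ∀ (R₁ : ℝ) (h v : Z6), 0 ≤ R₁ → (∀ l, t3 (r3 h) l ≠ 0) →
      volume {m : R6 | NR Q T R₁ A (r3 h) (r3 v) m} ≤
        volume {m : ℂ × ℂ × ℂ | NRC (Q ^ a) (Q * T) R₁ g h v m}

namespace H10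

open Pool.Agent.Helper68_F5 (sp wd bf sp_self bf_comm abs_sp_le abs_wd_le)

/-! ### linear algebra -/

/-- Cholesky -/
theorem chol {Q : ℝ} (hQ : 1 ≤ Q) {A : ℝ × ℝ × ℝ} (hA : A ∈ KM Q) : ∃ p q r : ℝ, 0 < p ∧ 0 < r ∧
    p ^ 2 = A.1 ∧ p * q = A.2.1 ∧ q ^ 2 + r ^ 2 = A.2.2 ∧ 1 ≤ Q * (p * r) := by
  have hQ0 : 0 < Q := by linarith
  have h1 := (hA (1, 0)).1
  have h2 := (hA (A.2.1, -A.1)).1
  simp only [nr, qf] at h1 h2
  rw [div_le_iff₀ hQ0] at h1 h2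
  have hα : 1 ≤ A.1 * Q := by nlinarith
  have hα0 : 0 < A.1 := by
    by_contra hcon
    push Not at hcon
    nlinarith
  have hd : A.1 * 1 ≤ A.1 * ((A.1 * A.2.2 - A.2.1 ^ 2) * Q * Q) := by
    have e1 : (A.1 * A.2.1 ^ 2 + 2 * A.2.1 * A.2.1 * -A.1 + A.2.2 * (-A.1) ^ 2) * Q =
        A.1 * ((A.1 * A.2.2 - A.2.1 ^ 2) * Q) := by ring
    rw [e1] at h2
    have h3 : A.1 ^ 2 ≤ A.1 * ((A.1 * A.2.2 - A.2.1 ^ 2) * Q) := by
      nlinarith [sq_nonneg A.2.1]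
    have h4 : A.1 ^ 2 * Q ≤ A.1 * ((A.1 * A.2.2 - A.2.1 ^ 2) * Q) * Q :=
      mul_le_mul_of_nonneg_right h3 hQ0.le
    have h5 : A.1 * 1 ≤ A.1 * (A.1 * Q) := mul_le_mul_of_nonneg_left hα hα0.le
    linarith
  have hd2 : 1 ≤ (A.1 * A.2.2 - A.2.1 ^ 2) * Q * Q := le_of_mul_le_mul_left hd hα0
  have hD0 : 0 < A.1 * A.2.2 - A.2.1 ^ 2 := by
    by_contra hcon
    push Not at hcon
    have : (A.1 * A.2.2 - A.2.1 ^ 2) * Q * Q ≤ 0 := by
      have := mul_nonneg hQ0.le hQ0.le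
      nlinarith
    linarith
  have hp : 0 < Real.sqrt A.1 := Real.sqrt_pos.2 hα0
  have hp2 : Real.sqrt A.1 ^ 2 = A.1 := Real.sq_sqrt hα0.le
  have hr0 : 0 < (A.1 * A.2.2 - A.2.1 ^ 2) / A.1 := by positivity
  have hr : 0 < Real.sqrt ((A.1 * A.2.2 - A.2.1 ^ 2) / A.1) := Real.sqrt_pos.2 hr0
  have hr2 : Real.sqrt ((A.1 * A.2.2 - A.2.1 ^ 2) / A.1) ^ 2 =
    (A.1 * A.2.2 - A.2.1 ^ 2) / A.1 := Real.sq_sqrt hr0.le
  refine ⟨Real.sqrt A.1, A.2.1 / Real.sqrt A.1, Real.sqrt ((A.1 * A.2.2 - A.2.1 ^ 2) / A.1), hp, hr,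
    hp2, by field_simp, ?_, ?_⟩
  · rw [div_pow, hp2, hr2]
    field_simp
    ring
  · have h6 : (Q * (Real.sqrt A.1 * Real.sqrt ((A.1 * A.2.2 - A.2.1 ^ 2) / A.1))) ^ 2 =
        (A.1 * A.2.2 - A.2.1 ^ 2) * Q * Q := by
      rw [mul_pow, mul_pow, hp2, hr2]
      field_simp
    have h7 : (1 : ℝ) ^ 2 ≤
        (Q * (Real.sqrt A.1 * Real.sqrt ((A.1 * A.2.2 - A.2.1 ^ 2) / A.1))) ^ 2 := by
      rw [h6]; linarith
    exact abs_le_of_sq_le_sq' h7 (by positivity) |>.2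

/-- the frame -/
noncomputable def fr (a b d : ℝ) (x : ℝ × ℝ) : ℂ := ⟨a * x.1 + b * x.2, d * x.2⟩

theorem fr_sub (a b d : ℝ) (x y : ℝ × ℝ) : fr a b d (x - y) = fr a b d x - fr a b d y := by
  apply Complex.ext
  · simp only [fr, Prod.fst_sub, Prod.snd_sub, Complex.sub_re]; ring
  · simp only [fr, Prod.snd_sub, Complex.sub_im]; ring

theorem fr_add (a b d : ℝ) (x y : ℝ × ℝ) : fr a b d (x + y) = fr a b d x + fr a b d y := by
  apply Complex.ext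
  · simp only [fr, Prod.fst_add, Prod.snd_add, Complex.add_re]; ring
  · simp only [fr, Prod.snd_add, Complex.add_im]; ring

theorem fr_smul (a b d t : ℝ) (x : ℝ × ℝ) : fr a b d (t • x) = (t : ℂ) * fr a b d x := by
  apply Complex.ext
  · simp only [fr, Prod.smul_fst, Prod.smul_snd, smul_eq_mul, Complex.mul_re, Complex.ofReal_re,
      Complex.ofReal_im]; ring
  · simp only [fr, Prod.smul_snd, smul_eq_mul, Complex.mul_im, Complex.ofReal_re,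
      Complex.ofReal_im]; ring

theorem bf_fr (B : ℝ × ℝ × ℝ) (a b d : ℝ) (x y : ℝ × ℝ) : bf B (fr a b d x) (fr a b d y) =
    bl (bf B (fr a b d (1, 0)) (fr a b d (1, 0)), bf B (fr a b d (1, 0)) (fr a b d (0, 1)),
      bf B (fr a b d (0, 1)) (fr a b d (0, 1))) x y := by
  simp only [bf, fr, bl]; ring

/-- the frame `fr` of `Q² A` -/
structure IsFr (Q : ℝ) (A : ℝ × ℝ × ℝ) (a b d : ℝ) : Prop where
  sp' : ∀ x y, sp (fr a b d x) (fr a b d y) = Q ^ 2 * bl A x y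
  wd' : ∀ x y, wd (fr a b d x) (fr a b d y) = a * d * dr x y
  ad : Q ≤ a * d

theorem exists_fr {Q : ℝ} (hQ : 1 ≤ Q) {A : ℝ × ℝ × ℝ} (hA : A ∈ KM Q) :
    ∃ a b d : ℝ, IsFr Q A a b d := by
  obtain ⟨p, q, r, hp, hr, h1, h2, h3, h4⟩ := chol hQ hA
  refine ⟨Q * p, Q * q, Q * r, ?_, ?_, ?_⟩
  · intro x y
    simp only [sp, fr, bl]
    rw [← h1, ← h2, ← h3]
    ring
  · intro x y
    simp only [wd, fr, dr]
    ring
  · have : Q * 1 ≤ Q * (Q * (p * r)) := mul_le_mul_of_nonneg_left h4 (by linarith)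
    linarith

variable {Q a b d : ℝ} {A : ℝ × ℝ × ℝ}

theorem sq_norm_fr (F : IsFr Q A a b d) (x : ℝ × ℝ) : ‖fr a b d x‖ ^ 2 = Q ^ 2 * qf A x := by
  rw [← sp_self, F.sp', bl_self]

theorem nr_ge (x : ℝ × ℝ) : ‖x‖ ^ 2 ≤ nr x := by
  rw [Prod.norm_def, nr]
  rcases le_total ‖x.1‖ ‖x.2‖ with h | h
  · rw [max_eq_right h, Real.norm_eq_abs, sq_abs]
    nlinarith [sq_nonneg x.1]
  · rw [max_eq_left h, Real.norm_eq_abs, sq_abs]
    nlinarith [sq_nonneg x.2]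

theorem nr_le (x : ℝ × ℝ) : nr x ≤ 2 * ‖x‖ ^ 2 := by
  have h1 : x.1 ^ 2 ≤ ‖x‖ ^ 2 := by
    rw [← sq_abs]
    exact pow_le_pow_left₀ (abs_nonneg _) (by
      rw [← Real.norm_eq_abs]; exact norm_fst_le x) 2
  have h2 : x.2 ^ 2 ≤ ‖x‖ ^ 2 := by
    rw [← sq_abs]
    exact pow_le_pow_left₀ (abs_nonneg _) (by
      rw [← Real.norm_eq_abs]; exact norm_snd_le x) 2
  rw [nr]
  linarith

theorem norm_fr_ge (hQ : 2 ≤ Q) (hA : A ∈ KM Q) (F : IsFr Q A a b d) (x : ℝ × ℝ) :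
    ‖x‖ ≤ ‖fr a b d x‖ := by
  have h1 := (hA x).1
  rw [div_le_iff₀ (by linarith)] at h1
  have h2 := nr_ge x
  have h3 := sq_norm_fr F x
  have h4 : ‖x‖ ^ 2 ≤ ‖fr a b d x‖ ^ 2 := by
    rw [h3]
    have h5 : 0 ≤ nr x := by unfold nr; positivity
    have h6 : nr x * 1 ≤ (qf A x * Q) * Q := mul_le_mul h1 (by linarith) (by norm_num) (by linarith)
    nlinarith
  exact abs_le_of_sq_le_sq' h4 (norm_nonneg _) |>.2

theorem norm_fr_le (hQ : 2 ≤ Q) (hA : A ∈ KM Q) (F : IsFr Q A a b d) (x : ℝ × ℝ) :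
    ‖fr a b d x‖ ≤ Q ^ 2 * ‖x‖ := by
  have h1 := (hA x).2
  have h2 := nr_le x
  have h3 := sq_norm_fr F x
  have h4 : ‖fr a b d x‖ ^ 2 ≤ (Q ^ 2 * ‖x‖) ^ 2 := by
    rw [h3]
    have h5 : Q ^ 2 * qf A x ≤ Q ^ 2 * (Q * (2 * ‖x‖ ^ 2)) := by
      apply mul_le_mul_of_nonneg_left _ (by positivity)
      exact le_trans h1 (mul_le_mul_of_nonneg_left h2 (by linarith))
    have h6 : Q ^ 3 * ‖x‖ ^ 2 * 2 ≤ Q ^ 3 * ‖x‖ ^ 2 * Q :=
      mul_le_mul_of_nonneg_left hQ (by positivity)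
    nlinarith
  exact abs_le_of_sq_le_sq' h4 (by positivity) |>.2

/-- the lattice -/
noncomputable def gg (a b d : ℝ) : ℤ × ℤ →+ ℂ := AddMonoidHom.mk' (fun z => fr a b d (rc z)) (by
  intro x y
  rw [← fr_add]
  congr 1
  simp [rc])

theorem gg_apply (a b d : ℝ) (z : ℤ × ℤ) : gg a b d z = fr a b d (rc z) := rfl

theorem norm_rc_ge {z : ℤ × ℤ} (hz : z ≠ 0) : 1 ≤ ‖rc z‖ := by
  have h : ∀ n : ℤ, n ≠ 0 → (1 : ℝ) ≤ ‖(n : ℝ)‖ := by
    intro n hn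
    rw [Real.norm_eq_abs]
    exact_mod_cast Int.one_le_abs hn
  by_cases h1 : z.1 = 0
  · have h2 : z.2 ≠ 0 := fun h2 => hz (Prod.ext h1 h2)
    exact le_trans (h _ h2) (norm_snd_le (rc z))
  · exact le_trans (h _ h1) (norm_fst_le (rc z))

theorem sep_gg (hQ : 2 ≤ Q) (hA : A ∈ KM Q) (F : IsFr Q A a b d) :
    Helper68_F5.Sep 1 (gg a b d) := by
  intro z hz
  exact le_trans (norm_rc_ge hz) (norm_fr_ge hQ hA F (rc z))

/-- annulus count -/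
theorem jg_gg : ∃ k : ℕ, ∀ (Q a b d : ℝ) (A : ℝ × ℝ × ℝ), 2 ≤ Q → A ∈ KM Q → IsFr Q A a b d →
    H9.JG (Q ^ k) (gg a b d) := by
  obtain ⟨C, hC, h⟩ := Pool.Agent.Helper96_DZ.annulusP
  obtain ⟨k, hk⟩ := pow_unbounded_of_one_lt C (by norm_num : (1 : ℝ) < 2)
  refine ⟨k + 60, ?_⟩
  intro Q a b d A hQ hA F B hB s W hW hs S hS
  have hQ0 : 0 < Q := by linarith
  have key := h (2 * Q ^ 3) (by nlinarith [pow_le_pow_left₀ (by norm_num : (0 : ℝ) ≤ 2) hQ 3])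
    (bf B (fr a b d (1, 0)) (fr a b d (1, 0)), bf B (fr a b d (1, 0)) (fr a b d (0, 1)),
      bf B (fr a b d (0, 1)) (fr a b d (0, 1))) ?_ W s hW hs S ?_
  · refine le_trans key (mul_le_mul_of_nonneg_right ?_ (by linarith))
    have h1 : C ≤ Q ^ k := le_trans hk.le (pow_le_pow_left₀ (by norm_num) hQ k)
    have h2 : (2 * Q ^ 3) ^ 15 ≤ Q ^ 60 := by
      have h3 : 2 * Q ^ 3 ≤ Q ^ 4 := by
        have := mul_le_mul_of_nonneg_right hQ (by positivity : (0 : ℝ) ≤ Q ^ 3)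
        calc 2 * Q ^ 3 ≤ Q * Q ^ 3 := this
          _ = Q ^ 4 := by ring
      calc (2 * Q ^ 3) ^ 15 ≤ (Q ^ 4) ^ 15 := pow_le_pow_left₀ (by positivity) h3 15
        _ = Q ^ 60 := by rw [← pow_mul]
    rw [pow_add]
    exact mul_le_mul h1 h2 (by positivity) (by positivity)
  · intro x
    have hx := hB (fr a b d x)
    rw [Helper68_F5.bf_sub_left, Helper68_F5.bf_one, sp_self, sq_norm_fr F, bf_fr, bl_self] at hx
    have h1 := abs_le.1 hx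
    have hAx := hA x
    have hn : 0 ≤ nr x := by unfold nr; positivity
    have h2 := hAx.1
    rw [div_le_iff₀ hQ0] at h2
    refine ⟨?_, ?_⟩
    · rw [div_le_iff₀ (by positivity)]
      have h3 : Q ^ 2 * qf A x / 2 ≤
        qf (bf B (fr a b d (1, 0)) (fr a b d (1, 0)), bf B (fr a b d (1, 0)) (fr a b d (0, 1)),
          bf B (fr a b d (0, 1)) (fr a b d (0, 1))) x := by linarith [h1.1]
      refine le_trans ?_ (mul_le_mul_of_nonneg_right h3 (by positivity))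
      have h4 : Q ^ 2 * qf A x / 2 * (2 * Q ^ 3) = (qf A x * Q) * Q ^ 4 := by ring
      rw [h4]
      have h5 : 1 ≤ Q ^ 4 := one_le_pow₀ (by linarith)
      calc nr x = nr x * 1 := by ring
        _ ≤ (qf A x * Q) * Q ^ 4 := mul_le_mul h2 h5 (by norm_num) (by linarith)
    · have h3 : qf (bf B (fr a b d (1, 0)) (fr a b d (1, 0)),
          bf B (fr a b d (1, 0)) (fr a b d (0, 1)),
          bf B (fr a b d (0, 1)) (fr a b d (0, 1))) x ≤ 2 * (Q ^ 2 * qf A x) := by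
        have : 0 ≤ Q ^ 2 * qf A x := by rw [← sq_norm_fr F]; positivity
        linarith [h1.2]
      refine le_trans h3 ?_
      have h4 : Q ^ 2 * qf A x ≤ Q ^ 2 * (Q * nr x) :=
        mul_le_mul_of_nonneg_left hAx.2 (by positivity)
      linarith [h4, show Q ^ 2 * (Q * nr x) = Q ^ 3 * nr x from by ring]
  · intro z hz
    have h1 := hS z hz
    rw [gg_apply, bf_fr, bl_self] at h1
    exact h1

/-! ### transfer of the points -/

theorem dr_le {z w : ℝ × ℝ} {x y : ℝ} (hz : ‖z‖ ≤ x) (hw : ‖w‖ ≤ y) : |dr z w| ≤ 2 * x * y := by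
  have z1 := le_trans (norm_fst_le z) hz
  have z2 := le_trans (norm_snd_le z) hz
  have w1 := le_trans (norm_fst_le w) hw
  have w2 := le_trans (norm_snd_le w) hw
  rw [Real.norm_eq_abs] at z1 z2 w1 w2
  have hx : 0 ≤ x := le_trans (abs_nonneg _) z1
  have h1 : |z.1 * w.2| ≤ x * y := by
    rw [abs_mul]; exact mul_le_mul z1 w2 (abs_nonneg _) hx
  have h2 : |z.2 * w.1| ≤ x * y := by
    rw [abs_mul]; exact mul_le_mul z2 w1 (abs_nonneg _) hx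
  have h3 := abs_sub (z.1 * w.2) (z.2 * w.1)
  rw [dr]
  linarith

theorem c3_fr (m : R6) (l : Fin 3) :
    c3 (fr a b d m.1, fr a b d m.2.1, fr a b d m.2.2) l = fr a b d (t3 m l) := by
  fin_cases l <;> rfl

theorem g3_gg (h : Z6) (l : Fin 3) : g3 (gg a b d) h l = fr a b d (t3 (r3 h) l) := by
  fin_cases l <;> rfl

theorem t3_r3 (h : Z6) (l : Fin 3) : ∃ z : ℤ × ℤ, t3 (r3 h) l = rc z := by
  fin_cases l
  · exact ⟨h.1, rfl⟩
  · exact ⟨h.2.1, rfl⟩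
  · exact ⟨h.2.2, rfl⟩

theorem t3_r3_ge {h : Z6} {l : Fin 3} (hl : t3 (r3 h) l ≠ 0) : 1 ≤ ‖t3 (r3 h) l‖ := by
  obtain ⟨z, hz⟩ := t3_r3 h l
  rw [hz] at hl ⊢
  apply norm_rc_ge
  intro h0
  apply hl
  rw [h0]
  simp [rc]

/-- the form `Ah` in the frame is `c² D` -/
theorem ah_eq {T c : ℝ} (hQ : 0 < Q) (F : IsFr Q A a b d) {D : ℝ × ℝ × ℝ}
    {x₁ x₂ x₃ y₁ y₂ y₃ : ℝ × ℝ}
    (h1 : qf D x₁ = 1 + qf A y₁ / (4 * T ^ 2)) (h2 : qf D x₂ = 1 + qf A y₂ / (4 * T ^ 2))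
    (h3 : qf D x₃ = 1 + qf A y₃ / (4 * T ^ 2)) (d12 : dr x₁ x₂ ≠ 0) (d23 : dr x₂ x₃ ≠ 0)
    (d31 : dr x₃ x₁ ≠ 0) (x y : ℝ × ℝ) :
    bf (Helper68_F5.Ah ((Q * T) ^ 2) c (fr a b d x₁) (fr a b d x₂) (fr a b d x₃) (fr a b d y₁)
      (fr a b d y₂) (fr a b d y₃)) (fr a b d x) (fr a b d y) = c ^ 2 * bl D x y := by
  have had : 0 < a * d := lt_of_lt_of_le hQ F.ad
  have w12 : wd (fr a b d x₁) (fr a b d x₂) ≠ 0 := by
    rw [F.wd']; exact mul_ne_zero had.ne' d12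
  have w23 : wd (fr a b d x₂) (fr a b d x₃) ≠ 0 := by
    rw [F.wd']; exact mul_ne_zero had.ne' d23
  have w31 : wd (fr a b d x₃) (fr a b d x₁) ≠ 0 := by
    rw [F.wd']; exact mul_ne_zero had.ne' d31
  have hs : ∀ y : ℝ × ℝ, ‖fr a b d y‖ ^ 2 / (4 * (Q * T) ^ 2) = qf A y / (4 * T ^ 2) := by
    intro y
    rw [sq_norm_fr F, mul_pow, show 4 * (Q ^ 2 * T ^ 2) = Q ^ 2 * (4 * T ^ 2) from by ring]
    exact mul_div_mul_left _ _ (by positivity)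
  rw [Helper68_F5.Ah, hs, hs, hs, ← h1, ← h2, ← h3]
  obtain ⟨I, hI⟩ : ∃ I, I = Helper68_F5.itp (fr a b d x₁) (fr a b d x₂) (fr a b d x₃)
    (c ^ 2 * qf D x₁) (c ^ 2 * qf D x₂) (c ^ 2 * qf D x₃) := ⟨_, rfl⟩
  rw [← hI]
  have v1 : bf I (fr a b d x₁) (fr a b d x₁) = c ^ 2 * qf D x₁ := by
    rw [hI]; exact Helper68_F5.itp_val₁ w12 w23 w31 _ _ _
  have v2 : bf I (fr a b d x₂) (fr a b d x₂) = c ^ 2 * qf D x₂ := by
    rw [hI]; exact Helper68_F5.itp_val₂ w12 w23 w31 _ _ _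
  have v3 : bf I (fr a b d x₃) (fr a b d x₃) = c ^ 2 * qf D x₃ := by
    rw [hI]; exact Helper68_F5.itp_val₃ w12 w23 w31 _ _ _
  rw [bf_fr, bl_self] at v1 v2 v3
  rw [bf_fr]
  have l1 := lag (bf I (fr a b d (1, 0)) (fr a b d (1, 0)), bf I (fr a b d (1, 0)) (fr a b d (0, 1)),
      bf I (fr a b d (0, 1)) (fr a b d (0, 1))) x₁ x₂ x₃ x y
  have l2 := lag D x₁ x₂ x₃ x y
  rw [v1, v2, v3] at l1
  have hne : dr x₁ x₂ * dr x₂ x₃ * dr x₃ x₁ ≠ 0 := mul_ne_zero (mul_ne_zero d12 d23) d31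
  apply mul_right_cancel₀ hne
  linear_combination (1 / 2) * l1 - (c ^ 2 / 2) * l2

theorem nrc_of {T R₁ : ℝ} (hT : 1 ≤ T) (hQ : 2 ≤ Q) (hA : A ∈ KM Q) (F : IsFr Q A a b d) {k : ℕ}
    (hk : 12 ≤ k) (hQT : Q ≤ T) (hR : 0 ≤ R₁) {h v : Z6} (hh : ∀ l, t3 (r3 h) l ≠ 0)
    {m : R6} (H : NR Q T R₁ A (r3 h) (r3 v) m) :
    NRC (Q ^ k) (Q * T) R₁ (gg a b d) h v (fr a b d m.1, fr a b d m.2.1, fr a b d m.2.2) := by
  have hQ0 : 0 < Q := by linarith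
  have hQ1 : 1 ≤ Q := by linarith
  have hT0 : 0 < T := by linarith
  have hpow : ∀ n : ℕ, n ≤ k → Q ^ n ≤ Q ^ k := fun n hn => pow_le_pow_right₀ hQ1 hn
  have hA0 : ∀ x : ℝ × ℝ, 0 ≤ qf A x := by
    intro x
    have h1 := (hA x).1
    have h2 : 0 ≤ nr x / Q := by unfold nr; positivity
    linarith
  have hQT2 : Q ≤ T ^ 2 := by nlinarith
  have hm2 : ∀ l, ‖fr a b d (t3 m l)‖ ^ 2 ≤ 2 * Q ^ 2 * T ^ 2 := by
    intro l
    rw [sq_norm_fr F]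
    have h1 := (abs_le.1 (H.an l)).2
    rw [AW] at h1
    have h2 := hA0 (t3 (r3 h) l)
    have h3 : qf A (t3 m l) ≤ 2 * T ^ 2 := by linarith
    calc Q ^ 2 * qf A (t3 m l) ≤ Q ^ 2 * (2 * T ^ 2) :=
          mul_le_mul_of_nonneg_left h3 (by positivity)
      _ = _ := by ring
  refine ⟨?_, ?_, ?_, ?_, ?_⟩
  · intro l
    rw [c3_fr, g3_gg, sq_norm_fr F, sq_norm_fr F]
    have e : Q ^ 2 * qf A (t3 m l) + Q ^ 2 * qf A (t3 (r3 h) l) / 4 - (Q * T) ^ 2 =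
        Q ^ 2 * (AW A (t3 m) (t3 (r3 h)) l - T ^ 2) := by rw [AW]; ring
    rw [e, abs_mul, abs_of_nonneg (by positivity : (0 : ℝ) ≤ Q ^ 2)]
    calc Q ^ 2 * |AW A (t3 m) (t3 (r3 h)) l - T ^ 2| ≤ Q ^ 2 * Q :=
          mul_le_mul_of_nonneg_left (H.an l) (by positivity)
      _ = Q ^ 3 := by ring
      _ ≤ Q ^ k := hpow 3 (by omega)
  · intro i j
    rw [c3_fr, c3_fr, g3_gg, g3_gg, F.sp', F.sp', ← mul_sub, abs_mul,
      abs_of_nonneg (by positivity : (0 : ℝ) ≤ Q ^ 2)]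
    have h1 := H.tb i j
    have gi := norm_fr_ge hQ hA F (t3 (r3 h) i)
    have gj := norm_fr_ge hQ hA F (t3 (r3 h) j)
    have hmx := max_le_max gi gj
    have h2 : 1 ≤ max ‖fr a b d (t3 (r3 h) i)‖ ‖fr a b d (t3 (r3 h) j)‖ :=
      le_trans (le_trans (t3_r3_ge (hh i)) gi) (le_max_left _ _)
    obtain ⟨μ, hμ⟩ : ∃ μ, μ = max ‖fr a b d (t3 (r3 h) i)‖ ‖fr a b d (t3 (r3 h) j)‖ := ⟨_, rfl⟩
    obtain ⟨μ', hμ'⟩ : ∃ μ', μ' = max ‖t3 (r3 h) i‖ ‖t3 (r3 h) j‖ := ⟨_, rfl⟩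
    rw [← hμ, ← hμ'] at hmx
    rw [← hμ] at h2 ⊢
    rw [← hμ'] at h1
    calc Q ^ 2 * |bl A (t3 m i) (t3 (r3 h) i) - bl A (t3 m j) (t3 (r3 h) j)| ≤
          Q ^ 2 * (Q * (1 + μ')) := mul_le_mul_of_nonneg_left h1 (by positivity)
      _ ≤ Q ^ 2 * (Q * (Q * μ)) := by
          apply mul_le_mul_of_nonneg_left _ (by positivity)
          apply mul_le_mul_of_nonneg_left _ hQ0.le
          nlinarith
      _ = Q ^ 4 * μ := by ring
      _ ≤ Q ^ k * μ := mul_le_mul_of_nonneg_right (hpow 4 (by omega)) (by linarith)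
  · intro i j hij
    rw [c3_fr, c3_fr, F.wd', abs_mul]
    have had : 0 < a * d := lt_of_lt_of_le hQ0 F.ad
    rw [abs_of_pos had]
    have h1 := hm2 i
    have h2 := hm2 j
    have h3 : ‖fr a b d (t3 m i)‖ * ‖fr a b d (t3 m j)‖ ≤ 2 * Q ^ 2 * T ^ 2 := by
      nlinarith [sq_nonneg (‖fr a b d (t3 m i)‖ - ‖fr a b d (t3 m j)‖)]
    have h4 := H.dd i j hij
    have h5 : T ^ 2 ≤ a * d * |dr (t3 m i) (t3 m j)| :=
      le_trans h4 (mul_le_mul_of_nonneg_right F.ad (abs_nonneg _))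
    calc ‖fr a b d (t3 m i)‖ * ‖fr a b d (t3 m j)‖ ≤ 2 * Q ^ 2 * T ^ 2 := h3
      _ ≤ Q * Q ^ 2 * T ^ 2 := by
          apply mul_le_mul_of_nonneg_right _ (by positivity)
          exact mul_le_mul_of_nonneg_right hQ (by positivity)
      _ = Q ^ 3 * T ^ 2 := by ring
      _ ≤ Q ^ k * (a * d * |dr (t3 m i) (t3 m j)|) :=
          mul_le_mul (hpow 3 (by omega)) h5 (by positivity) (by positivity)
  · obtain ⟨ν, hν, hy⟩ := H.ry
    refine ⟨ν, ?_, ?_⟩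
    · calc |ν| * (Q * T) = Q * (|ν| * T) := by ring
        _ ≤ Q * (Q * R₁) := mul_le_mul_of_nonneg_left hν hQ0.le
        _ = Q ^ 2 * R₁ := by ring
        _ ≤ Q ^ k * R₁ := mul_le_mul_of_nonneg_right (hpow 2 (by omega)) hR
    · intro l
      rw [c3_fr, g3_gg, ← fr_smul, ← fr_sub]
      calc ‖fr a b d (t3 (r3 v) l - ν • t3 m l)‖ ≤ Q ^ 2 * ‖t3 (r3 v) l - ν • t3 m l‖ :=
            norm_fr_le hQ hA F _
        _ ≤ Q ^ 2 * Q := mul_le_mul_of_nonneg_left (hy l) (by positivity)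
        _ = Q ^ 3 := by ring
        _ ≤ Q ^ k := hpow 3 (by omega)
  · intro hP i j
    obtain ⟨c, hc⟩ : ∃ c, c = ‖gg a b d v.1‖ := ⟨_, rfl⟩
    rw [← hc] at hP ⊢
    have hc1 : c ≤ Q ^ 2 * ‖rc v.1‖ := by rw [hc]; exact norm_fr_le hQ hA F (rc v.1)
    have hv1 : Q ^ 10 ≤ ‖rc v.1‖ := by
      have h1 : Q ^ 2 * Q ^ 10 ≤ Q ^ 2 * ‖rc v.1‖ := by
        calc Q ^ 2 * Q ^ 10 = Q ^ 12 := by ring
          _ ≤ Q ^ k := hpow 12 hk
          _ ≤ c := hP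
          _ ≤ _ := hc1
      exact le_of_mul_le_mul_left h1 (by positivity)
    have hvn : ‖rc v.1‖ ≤ ‖r3 v‖ := norm_fst_le (r3 v)
    have hQ10 : Q ≤ Q ^ 10 := by
      calc Q = Q ^ 1 := (pow_one Q).symm
        _ ≤ Q ^ 10 := pow_le_pow_right₀ hQ1 (by norm_num)
    obtain ⟨D, hD1, hD2⟩ := H.wn (by linarith)
    obtain ⟨ν, hν, hy⟩ := H.ry
    have hm : ∀ l, ‖t3 m l‖ ≤ Q ^ 2 * T := by
      intro l
      refine le_trans (norm_fr_ge hQ hA F _) ?_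
      have h1 := hm2 l
      have h2 : ‖fr a b d (t3 m l)‖ ^ 2 ≤ (Q ^ 2 * T) ^ 2 := by
        refine le_trans h1 ?_
        have h3 : 2 ≤ Q ^ 2 := by nlinarith
        have h4 : 2 * (Q ^ 2 * T ^ 2) ≤ Q ^ 2 * (Q ^ 2 * T ^ 2) :=
          mul_le_mul_of_nonneg_right h3 (by positivity)
        nlinarith
      exact abs_le_of_sq_le_sq' h2 (by positivity) |>.2
    have hτ0 : 0 ≤ |ν| * T := by positivity
    have hτ : Q ^ 7 ≤ |ν| * T := by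
      have h1 : ‖rc v.1‖ ≤ Q ^ 2 * (|ν| * T) + Q := by
        have h2 : rc v.1 = ν • t3 m 0 + (t3 (r3 v) 0 - ν • t3 m 0) := by
          have : t3 (r3 v) 0 = rc v.1 := rfl
          rw [this]; abel
        rw [h2]
        refine le_trans (norm_add_le _ _) ?_
        have h3 : ‖ν • t3 m 0‖ ≤ Q ^ 2 * (|ν| * T) := by
          rw [norm_smul, Real.norm_eq_abs]
          calc |ν| * ‖t3 m 0‖ ≤ |ν| * (Q ^ 2 * T) :=
                mul_le_mul_of_nonneg_left (hm 0) (abs_nonneg _)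
            _ = _ := by ring
        linarith [hy 0]
      have h4 : Q ≤ Q ^ 9 := by
        calc Q = Q ^ 1 := (pow_one Q).symm
          _ ≤ Q ^ 9 := pow_le_pow_right₀ hQ1 (by norm_num)
      have h5 : 2 * Q ^ 9 ≤ Q ^ 10 := by
        calc 2 * Q ^ 9 ≤ Q * Q ^ 9 := mul_le_mul_of_nonneg_right hQ (by positivity)
          _ = Q ^ 10 := by ring
      have h6 : Q ^ 2 * Q ^ 7 ≤ Q ^ 2 * (|ν| * T) := by
        have : Q ^ 2 * Q ^ 7 = Q ^ 9 := by ring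
        linarith
      exact le_of_mul_le_mul_left h6 (by positivity)
    have hdr : ∀ i j, i ≠ j → dr (t3 (r3 v) i) (t3 (r3 v) j) ≠ 0 := by
      intro i j hij h0
      have e : dr (t3 (r3 v) i) (t3 (r3 v) j) = ν ^ 2 * dr (t3 m i) (t3 m j) +
          (ν * dr (t3 m i) (t3 (r3 v) j - ν • t3 m j) +
            ν * dr (t3 (r3 v) i - ν • t3 m i) (t3 m j)) +
          dr (t3 (r3 v) i - ν • t3 m i) (t3 (r3 v) j - ν • t3 m j) := by
        simp only [dr, Prod.fst_sub, Prod.snd_sub, Prod.smul_fst, Prod.smul_snd, smul_eq_mul]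
        ring
      rw [h0] at e
      have b1 := dr_le (hm i) (hy j)
      have b2 := dr_le (hy i) (hm j)
      have b3 := dr_le (hy i) (hy j)
      have b4 := H.dd i j hij
      have c1 : |ν * dr (t3 m i) (t3 (r3 v) j - ν • t3 m j)| ≤ 2 * Q ^ 3 * (|ν| * T) := by
        rw [abs_mul]
        calc _ ≤ |ν| * (2 * (Q ^ 2 * T) * Q) := mul_le_mul_of_nonneg_left b1 (abs_nonneg _)
          _ = _ := by ring
      have c2 : |ν * dr (t3 (r3 v) i - ν • t3 m i) (t3 m j)| ≤ 2 * Q ^ 3 * (|ν| * T) := by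
        rw [abs_mul]
        calc _ ≤ |ν| * (2 * Q * (Q ^ 2 * T)) := mul_le_mul_of_nonneg_left b2 (abs_nonneg _)
          _ = _ := by ring
      have c3' : (|ν| * T) ^ 2 ≤ Q * (ν ^ 2 * |dr (t3 m i) (t3 m j)|) := by
        calc (|ν| * T) ^ 2 = ν ^ 2 * T ^ 2 := by rw [mul_pow, sq_abs]
          _ ≤ ν ^ 2 * (Q * |dr (t3 m i) (t3 m j)|) :=
              mul_le_mul_of_nonneg_left b4 (by positivity)
          _ = _ := by ring
      have c4 : ν ^ 2 * |dr (t3 m i) (t3 m j)| ≤ 4 * Q ^ 3 * (|ν| * T) + 2 * Q ^ 2 := by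
        have e2 : ν ^ 2 * |dr (t3 m i) (t3 m j)| = |ν ^ 2 * dr (t3 m i) (t3 m j)| := by
          rw [abs_mul, abs_of_nonneg (sq_nonneg ν)]
        rw [e2]
        have e3 : ν ^ 2 * dr (t3 m i) (t3 m j) =
            -(ν * dr (t3 m i) (t3 (r3 v) j - ν • t3 m j)) -
            (ν * dr (t3 (r3 v) i - ν • t3 m i) (t3 m j)) -
            dr (t3 (r3 v) i - ν • t3 m i) (t3 (r3 v) j - ν • t3 m j) := by linarith
        rw [e3, abs_le]
        have d1 := abs_le.1 c1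
        have d2 := abs_le.1 c2
        have d3 := abs_le.1 b3
        have e4 : 2 * Q * Q = 2 * Q ^ 2 := by ring
        rw [e4] at d3
        constructor
        · linarith [d1.1, d1.2, d2.1, d2.2, d3.1, d3.2]
        · linarith [d1.1, d1.2, d2.1, d2.2, d3.1, d3.2]
      have c5 : (|ν| * T) ^ 2 ≤ 4 * Q ^ 4 * (|ν| * T) + 2 * Q ^ 3 := by
        refine le_trans c3' (le_trans (mul_le_mul_of_nonneg_left c4 hQ0.le) (le_of_eq ?_))
        ring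
      obtain ⟨τ, hτe⟩ : ∃ τ, τ = |ν| * T := ⟨_, rfl⟩
      rw [← hτe] at c5 hτ hτ0
      have q4 : 0 < Q ^ 4 := by positivity
      have q1 : 1 ≤ Q ^ 7 := one_le_pow₀ hQ1
      have hτ1 : 1 ≤ τ := le_trans q1 hτ
      have q2 : 8 * Q ^ 4 ≤ Q ^ 7 := by
        have : 8 ≤ Q ^ 3 := by
          have := pow_le_pow_left₀ (by norm_num : (0 : ℝ) ≤ 2) hQ 3
          linarith
        calc 8 * Q ^ 4 ≤ Q ^ 3 * Q ^ 4 := mul_le_mul_of_nonneg_right this q4.le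
          _ = Q ^ 7 := by ring
      have q3 : 2 * Q ^ 3 ≤ Q ^ 4 := by
        calc 2 * Q ^ 3 ≤ Q * Q ^ 3 := mul_le_mul_of_nonneg_right hQ (by positivity)
          _ = Q ^ 4 := by ring
      have q5 : 8 * Q ^ 4 * τ ≤ τ ^ 2 := by
        calc 8 * Q ^ 4 * τ ≤ τ * τ := mul_le_mul_of_nonneg_right (le_trans q2 hτ) hτ0
          _ = τ ^ 2 := by ring
      have q6 : Q ^ 4 * 1 ≤ Q ^ 4 * τ := mul_le_mul_of_nonneg_left hτ1 q4.le
      nlinarith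
    have key := ah_eq (T := T) (c := c) hQ0 F (hD1 0) (hD1 1) (hD1 2) (hdr 0 1 (by decide))
      (hdr 1 2 (by decide)) (hdr 2 0 (by decide))
    have k1 : ∀ l, bf (Helper68_F5.Ah ((Q * T) ^ 2) c (gg a b d v.1) (gg a b d v.2.1)
        (gg a b d v.2.2) (gg a b d h.1) (gg a b d h.2.1) (gg a b d h.2.2))
        (g3 (gg a b d) v l) (g3 (gg a b d) h l) = c ^ 2 * bl D (t3 (r3 v) l) (t3 (r3 h) l) := by
      intro l
      rw [g3_gg, g3_gg]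
      exact key _ _
    rw [k1, k1, ← mul_sub, abs_mul, abs_of_nonneg (sq_nonneg c), g3_gg, g3_gg]
    have gi := norm_fr_ge hQ hA F (t3 (r3 h) i)
    have gj := norm_fr_ge hQ hA F (t3 (r3 h) j)
    have hmx := max_le_max gi gj
    have h1 := hD2 i j
    have hμ0 : 0 ≤ max ‖t3 (r3 h) i‖ ‖t3 (r3 h) j‖ := le_trans (norm_nonneg _) (le_max_left _ _)
    obtain ⟨μ, hμ⟩ : ∃ μ, μ = max ‖fr a b d (t3 (r3 h) i)‖ ‖fr a b d (t3 (r3 h) j)‖ := ⟨_, rfl⟩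
    obtain ⟨μ', hμ'⟩ : ∃ μ', μ' = max ‖t3 (r3 h) i‖ ‖t3 (r3 h) j‖ := ⟨_, rfl⟩
    obtain ⟨N, hN⟩ : ∃ N, N = ‖r3 v‖ := ⟨_, rfl⟩
    obtain ⟨X, hX⟩ : ∃ X, X = |bl D (t3 (r3 v) i) (t3 (r3 h) i) -
      bl D (t3 (r3 v) j) (t3 (r3 h) j)| := ⟨_, rfl⟩
    have hX0 : 0 ≤ X := by rw [hX]; exact abs_nonneg _
    rw [← hμ, ← hμ'] at hmx
    rw [← hμ, ← hX]
    rw [← hμ', ← hX, ← hN] at h1
    rw [← hμ'] at hμ0
    rw [← hN] at hvn
    have hN0 : 0 < N := lt_of_lt_of_le (by positivity) (le_trans hv1 hvn)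
    have hc0 : 0 < c := lt_of_lt_of_le (by positivity) hP
    have hcN : c ≤ Q ^ 2 * N := le_trans hc1 (mul_le_mul_of_nonneg_left hvn (by positivity))
    have hcN2 : c ^ 2 ≤ Q ^ 4 * N ^ 2 := by
      calc c ^ 2 ≤ (Q ^ 2 * N) ^ 2 := pow_le_pow_left₀ hc0.le hcN 2
        _ = _ := by ring
    have hdiv : μ' / N ≤ Q ^ 2 * (μ / c) := by
      rw [← mul_div_assoc, div_le_div_iff₀ hN0 hc0]
      calc μ' * c ≤ μ * (Q ^ 2 * N) := mul_le_mul hmx hcN hc0.le (le_trans hμ0 hmx)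
        _ = _ := by ring
    have hμc : 0 ≤ μ / c := div_nonneg (le_trans hμ0 hmx) hc0.le
    have hμN : 0 ≤ μ' / N := div_nonneg hμ0 hN0.le
    have q2 : 1 ≤ Q ^ 2 := one_le_pow₀ hQ1
    calc c ^ 2 * X ≤ Q ^ 4 * N ^ 2 * X := mul_le_mul_of_nonneg_right hcN2 hX0
      _ = Q ^ 4 * (N ^ 2 * X) := by ring
      _ ≤ Q ^ 4 * (Q * (1 + μ' / N)) := mul_le_mul_of_nonneg_left h1 (by positivity)
      _ ≤ Q ^ 4 * (Q * (Q ^ 2 * (1 + μ / c))) := by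
          apply mul_le_mul_of_nonneg_left _ (by positivity)
          apply mul_le_mul_of_nonneg_left _ hQ0.le
          linarith
      _ = Q ^ 7 * (1 + μ / c) := by ring
      _ ≤ Q ^ k * (1 + μ / c) := mul_le_mul_of_nonneg_right (hpow 7 (by omega)) (by linarith)

/-! ### volumes -/

/-- the linear map of the frame in coordinates -/
noncomputable def fl (a b d : ℝ) : ℝ × ℝ →ₗ[ℝ] ℝ × ℝ :=
  Matrix.toLin (Module.Basis.finTwoProd ℝ) (Module.Basis.finTwoProd ℝ) !![a, b; 0, d]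

theorem fl_apply (a b d : ℝ) (x : ℝ × ℝ) : fl a b d x = (a * x.1 + b * x.2, d * x.2) := by
  rw [fl, Matrix.toLin_finTwoProd_apply]
  simp

theorem det_fl (a b d : ℝ) : LinearMap.det (fl a b d) = a * d := by
  rw [fl, LinearMap.det_toLin, Matrix.det_fin_two_of]
  ring

/-- three times -/
noncomputable def fl3 (a b d : ℝ) : R6 →ₗ[ℝ] R6 :=
  (fl a b d).prodMap ((fl a b d).prodMap (fl a b d))

theorem det_fl3 (a b d : ℝ) : LinearMap.det (fl3 a b d) = (a * d) ^ 3 := by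
  rw [fl3, LinearMap.det_prodMap, LinearMap.det_prodMap, det_fl]
  ring

/-- `ℝ⁶ → ℂ³` -/
noncomputable def ee3 : R6 ≃ᵐ ℂ × ℂ × ℂ :=
  MeasurableEquiv.prodCongr Complex.measurableEquivRealProd.symm
    (MeasurableEquiv.prodCongr Complex.measurableEquivRealProd.symm
      Complex.measurableEquivRealProd.symm)

theorem mp_ee3 : MeasurePreserving ee3 := by
  have h := Complex.volume_preserving_equiv_real_prod.symm
  exact h.prod (h.prod h)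

theorem haar2 : (volume : Measure (ℝ × ℝ)).IsAddHaarMeasure :=
  Measure.prod.instIsAddHaarMeasure (volume : Measure ℝ) (volume : Measure ℝ)

theorem haar4 : (volume : Measure ((ℝ × ℝ) × ℝ × ℝ)).IsAddHaarMeasure := by
  have := haar2
  exact Measure.prod.instIsAddHaarMeasure (volume : Measure (ℝ × ℝ)) (volume : Measure (ℝ × ℝ))

theorem haar6 : (volume : Measure R6).IsAddHaarMeasure := by
  have := haar2
  have := haar4
  exact Measure.prod.instIsAddHaarMeasure (volume : Measure (ℝ × ℝ))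
    (volume : Measure ((ℝ × ℝ) × ℝ × ℝ))

theorem vol_le {a b d : ℝ} (had : 1 ≤ a * d) (S : Set R6) (U : Set (ℂ × ℂ × ℂ))
    (h : ∀ m ∈ S, (fr a b d m.1, fr a b d m.2.1, fr a b d m.2.2) ∈ U) : volume S ≤ volume U := by
  have h1 : S ⊆ fl3 a b d ⁻¹' (ee3 ⁻¹' U) := by
    intro m hm
    have h2 := h m hm
    have e : ee3 (fl3 a b d m) = (fr a b d m.1, fr a b d m.2.1, fr a b d m.2.2) := by
      have e1 : ∀ x : ℝ × ℝ, Complex.measurableEquivRealProd.symm (fl a b d x) = fr a b d x := by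
        intro x
        rw [fl_apply]
        rfl
      rw [← e1, ← e1, ← e1]
      rfl
    show ee3 (fl3 a b d m) ∈ U
    rw [e]
    exact h2
  have hdet : LinearMap.det (fl3 a b d) ≠ 0 := by
    rw [det_fl3]
    have : 0 < a * d := by linarith
    positivity
  refine le_trans (measure_mono h1) ?_
  have := haar6
  rw [Measure.addHaar_preimage_linearMap _ hdet, mp_ee3.measure_preimage_equiv]
  have h3 : ENNReal.ofReal |(LinearMap.det (fl3 a b d))⁻¹| ≤ 1 := by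
    rw [ENNReal.ofReal_le_one, det_fl3, abs_inv]
    apply inv_le_one_of_one_le₀
    rw [abs_of_nonneg (by positivity)]
    exact one_le_pow₀ had
  calc ENNReal.ofReal |(LinearMap.det (fl3 a b d))⁻¹| * volume U ≤ 1 * volume U :=
        mul_le_mul_left h3 _
    _ = volume U := one_mul _

/-- **FR** -/
theorem fr_stmt : FRStmt := by
  obtain ⟨k, hk⟩ := jg_gg
  refine ⟨k + 12, ?_⟩
  intro T Q hT hQ hQT A hA
  have hQ0 : 0 < Q := by linarith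
  have hQ1 : 1 ≤ Q := by linarith
  have hT0 : 0 < T := by linarith
  have hQT' : Q ≤ T := by
    have h1 : Q ≤ Q ^ (k + 12) := by
      calc Q = Q ^ 1 := (pow_one Q).symm
        _ ≤ Q ^ (k + 12) := pow_le_pow_right₀ hQ1 (by omega)
    have h2 : T ^ (1 / 100000 : ℝ) ≤ T ^ (1 : ℝ) :=
      Real.rpow_le_rpow_of_exponent_le hT (by norm_num)
    rw [Real.rpow_one] at h2
    linarith
  obtain ⟨a, b, d, F⟩ := exists_fr hQ1 hA
  refine ⟨gg a b d, sep_gg hQ hA F, ?_, ?_, ?_⟩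
  · intro B hB s W hW hs S hS
    refine le_trans (hk Q a b d A hQ hA F B hB s W hW hs S hS) ?_
    exact mul_le_mul_of_nonneg_right (pow_le_pow_right₀ hQ1 (by omega)) (by linarith)
  · intro z
    rw [gg_apply]
    refine ⟨norm_fr_ge hQ hA F _, le_trans (norm_fr_le hQ hA F _) ?_⟩
    exact mul_le_mul_of_nonneg_right (pow_le_pow_right₀ hQ1 (by norm_num)) (norm_nonneg _)
  · intro R₁ h v hR hh
    apply vol_le (a := a) (b := b) (d := d) (by linarith [F.ad])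
    intro m hm
    exact nrc_of hT hQ hA F (by omega) hQT' hR hh hm

end H10

end Pool.Agent.F5H.BN
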