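import Pool.Agent.Helper10_F5H.FNN
import Pool.Agent.Helper10_F5H.FR
import Pool.Agent.Helper20_F5H.FXA
import Pool.Agent.Helper20_F5H.WIN
import Pool.Agent.Helper92_F5H.NEA
import Pool.Agent.Helper25_F5H.VOL
import Pool.Agent.Helper67_F5H.NBox
import Pool.Agent.Helper9_F5H.Du1
import Pool.Agent.Helper46_F5N.DU2

/-!
MP_f5cbfa_nt, squad F5H, block N: closing file, `NStmt` from the kernel bound `FUPeStmt`.
-/

set_option autoImplicit false

namespace Pool.Agent.F5H.BN.H10

/-- block N, given the kernel bound (FUPe) -/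
theorem block_n (hFUP : FUPeStmt) : NStmt :=
  fnn hFUP (H67.box Pool.Agent.Helper92_F5H.result_NEA H25.vol H20.win)
    (H20.fxa_of H9.du1 Pool.Agent.Helper46_F5N.du2 fr_stmt)

end Pool.Agent.F5H.BN.H10
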