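import Pool.Agent.F5H.StmtsN

/-!
MP_f5cbfa_nt, squad F5H, block N, row FNN: `NStmt` from the pointwise row with a free exponent
(`FUPeStmt`), BOX and FXA.
-/

set_option autoImplicit false

open MeasureTheory Filter Topology
open scoped ENNReal

namespace Pool.Agent.F5H.BN

open Pool.Agent.BTL Pool.Agent.F5S Pool.Agent.F5H Pool.Agent.Helper48_F5

namespace H10

/-! ### norms -/

theorem norm_r3 (x : Z6) : ‖r3 x‖ = ‖x‖ := by
  obtain ⟨⟨a, b⟩, ⟨c, d⟩, ⟨e, f⟩⟩ := x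
  simp [r3, rc, Prod.norm_def, Int.norm_eq_abs]

theorem norm_t3_le (x : R6) (l : Fin 3) : ‖t3 x l‖ ≤ ‖x‖ := by
  obtain ⟨a, b, c⟩ := x
  fin_cases l
  · show ‖a‖ ≤ max ‖a‖ (max ‖b‖ ‖c‖)
    exact le_max_left _ _
  · show ‖b‖ ≤ max ‖a‖ (max ‖b‖ ‖c‖)
    exact (le_max_left _ _).trans (le_max_right _ _)
  · show ‖c‖ ≤ max ‖a‖ (max ‖b‖ ‖c‖)
    exact (le_max_right _ _).trans (le_max_right _ _)

theorem norm_le_t3 (x : R6) {B : ℝ} (h : ∀ l, ‖t3 x l‖ ≤ B) : ‖x‖ ≤ B := by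
  obtain ⟨a, b, c⟩ := x
  show max ‖a‖ (max ‖b‖ ‖c‖) ≤ B
  exact max_le (h 0) (max_le (h 1) (h 2))

theorem norm_rc (z : ℤ × ℤ) : ‖rc z‖ = ‖z‖ := by
  obtain ⟨a, b⟩ := z
  simp [rc, Prod.norm_def, Int.norm_eq_abs]

theorem one_le_norm {z : ℤ × ℤ} (hz : z ≠ 0) : 1 ≤ ‖z‖ := by
  obtain ⟨a, b⟩ := z
  rw [Prod.norm_def]
  rw [Ne, Prod.mk_eq_zero, not_and_or] at hz
  rcases hz with h | h
  · refine le_max_of_le_left ?_
    rw [Int.norm_eq_abs]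
    exact_mod_cast Int.one_le_abs h
  · refine le_max_of_le_right ?_
    rw [Int.norm_eq_abs]
    exact_mod_cast Int.one_le_abs h

theorem one_le_t3 {h : Z6} (hh : NZ h) (l : Fin 3) : 1 ≤ ‖t3 (r3 h) l‖ := by
  obtain ⟨h1, h2, h3⟩ := hh
  fin_cases l
  · show 1 ≤ ‖rc h.1‖
    rw [norm_rc]
    exact one_le_norm h1
  · show 1 ≤ ‖rc h.2.1‖
    rw [norm_rc]
    exact one_le_norm h2
  · show 1 ≤ ‖rc h.2.2‖
    rw [norm_rc]
    exact one_le_norm h3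

/-- two of the three norms are at most `V2` -/
theorem two_small {h : Z6} {B : ℝ} (hB : V2 h ≤ B) :
    ∃ i j : Fin 3, i ≠ j ∧ ‖t3 (r3 h) i‖ ≤ B ∧ ‖t3 (r3 h) j‖ ≤ B := by
  have e0 : ‖t3 (r3 h) 0‖ = ‖h.1‖ := norm_rc _
  have e1 : ‖t3 (r3 h) 1‖ = ‖h.2.1‖ := norm_rc _
  have e2 : ‖t3 (r3 h) 2‖ = ‖h.2.2‖ := norm_rc _
  unfold V2 at hB
  have h1 : min ‖h.1‖ ‖h.2.1‖ ≤ B := (le_max_left _ _).trans hB
  have h2 : min ‖h.1‖ ‖h.2.2‖ ≤ B := ((le_max_left _ _).trans (le_max_right _ _)).trans hB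
  have h3 : min ‖h.2.1‖ ‖h.2.2‖ ≤ B := ((le_max_right _ _).trans (le_max_right _ _)).trans hB
  rcases min_le_iff.mp h1 with g1 | g1
  · rcases min_le_iff.mp h3 with g3 | g3
    · exact ⟨0, 1, by decide, by rw [e0]; exact g1, by rw [e1]; exact g3⟩
    · exact ⟨0, 2, by decide, by rw [e0]; exact g1, by rw [e2]; exact g3⟩
  · rcases min_le_iff.mp h2 with g3 | g3
    · exact ⟨0, 1, by decide, by rw [e0]; exact g3, by rw [e1]; exact g1⟩
    · exact ⟨1, 2, by decide, by rw [e1]; exact g1, by rw [e2]; exact g3⟩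

/-! ### monotonicity in the constant -/

theorem nr_nonneg (x : ℝ × ℝ) : 0 ≤ nr x := by
  unfold nr
  positivity

theorem KM_mono {M M' : ℝ} (hM : 0 < M) (h : M ≤ M') : KM M ⊆ KM M' := by
  intro A hA x
  obtain ⟨h1, h2⟩ := hA x
  have h0 := nr_nonneg x
  constructor
  · refine le_trans ?_ h1
    exact div_le_div_of_nonneg_left h0 hM h
  · exact h2.trans (mul_le_mul_of_nonneg_right h h0)

theorem vol_KM {M : ℝ} (hM : 0 < M) : volume (KM M) ≤ ENNReal.ofReal (8 * M ^ 3) := by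
  have hsub : KM M ⊆ Set.Icc (-M) M ×ˢ (Set.Icc (-M) M ×ˢ Set.Icc (-M) M) := by
    rintro ⟨a, b, c⟩ hA
    have e1 := hA (1, 0)
    have e2 := hA (0, 1)
    have e3 := hA (1, 1)
    have e4 := hA (1, -1)
    simp only [nr, qf] at e1 e2 e3 e4
    have hi : 0 ≤ 1 / M := by positivity
    have f1 := e1.1
    have f2 := e2.1
    norm_num at e1 e2 e3 e4 f1 f2
    have hi' : 0 < M⁻¹ := inv_pos.mpr hM
    refine ⟨⟨?_, ?_⟩, ⟨?_, ?_⟩, ⟨?_, ?_⟩⟩ <;> simp only <;> nlinarith [e1.1, e1.2, e2.1, e2.2, e3.2, e4.2]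
  refine (measure_mono hsub).trans (le_of_eq ?_)
  rw [Measure.volume_eq_prod, Measure.prod_prod, Measure.volume_eq_prod, Measure.prod_prod,
    Real.volume_Icc, ← ENNReal.ofReal_mul (by linarith), ← ENNReal.ofReal_mul (by linarith)]
  congr 1
  ring

theorem WN_mono {P P' T : ℝ} {A : ℝ × ℝ × ℝ} {h v : R6} (hP : P ≤ P') (hw : WN P T A h v) :
    WN P' T A h v := by
  obtain ⟨D, h1, h2⟩ := hw
  refine ⟨D, h1, fun i j => (h2 i j).trans ?_⟩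
  refine mul_le_mul_of_nonneg_right hP ?_
  have : 0 ≤ max ‖t3 h i‖ ‖t3 h j‖ := le_max_of_le_left (norm_nonneg _)
  positivity

theorem NR_mono {P P' T R₁ : ℝ} {A : ℝ × ℝ × ℝ} {h v m : R6} (hR : 0 ≤ R₁) (hP : P ≤ P')
    (hn : NR P T R₁ A h v m) : NR P' T R₁ A h v m := by
  obtain ⟨h1, h2, h3, ⟨ν, h4, h5⟩, h6⟩ := hn
  refine ⟨fun l => (h1 l).trans hP, fun i j => (h2 i j).trans ?_, fun i j hij =>
    (h3 i j hij).trans (mul_le_mul_of_nonneg_right hP (abs_nonneg _)),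
    ⟨ν, h4.trans (mul_le_mul_of_nonneg_right hP hR), fun l => (h5 l).trans hP⟩,
    fun hv => WN_mono hP (h6 (hP.trans hv))⟩
  refine mul_le_mul_of_nonneg_right hP ?_
  have : 0 ≤ max ‖t3 h i‖ ‖t3 h j‖ := le_max_of_le_left (norm_nonneg _)
  positivity

/-- BOX with a positive exponent -/
theorem box_pos (hB : BOXStmt) : ∃ c : ℕ, 1 ≤ c ∧ ∀ T Q : ℝ, 2 ≤ Q → 0 ≤ T →
    Q ^ c ≤ T ^ (1 / 100000 : ℝ) →
  ∀ (R₁ : ℝ) (h : Z6) (X : Finset Z6), 1 ≤ R₁ → R₁ ≤ T ^ (12 / 25 : ℝ) → h ≠ 0 →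
    ‖r3 h‖ ≤ Q * Lx T → (∀ x ∈ X, Rg Q T (r3 h) (mid (r3 h) (r3 x))) →
    (X.card : ENNReal) ≤ ENNReal.ofReal (Q ^ c * T ^ 6 / R₁) *
      ∫⁻ A in KM (Q ^ c), ∑' v : Z6, volume {m : R6 | NR (Q ^ c) T R₁ A (r3 h) (r3 v) m} := by
  obtain ⟨c, hc⟩ := hB
  refine ⟨c + 1, by omega, fun T Q hQ hT hQc R₁ h X hR1 hR2 hh hhn hX => ?_⟩
  have hle : Q ^ c ≤ Q ^ (c + 1) := pow_le_pow_right₀ (by linarith) (by omega)
  have h1 := hc T Q hQ (hle.trans hQc) R₁ h X hR1 hR2 hh hhn hX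
  refine h1.trans ?_
  have hpos : 0 < Q ^ c := by positivity
  gcongr
  · exact KM_mono hpos hle
  · intro hm
    exact NR_mono (by linarith) hle hm

/-! ### the length of the boxes -/

theorem p3 {a b c X Y : ℝ} (ha : 0 ≤ a) (hb : 0 ≤ b) (hc : 0 ≤ c) (h1 : a ≤ X) (h2 : b ≤ X)
    (h3 : c ≤ Y) : a * b * c ≤ X * X * Y := by
  have hX : 0 ≤ X := ha.trans h1
  exact mul_le_mul (mul_le_mul h1 h2 hb hX) h3 hc (mul_nonneg hX hX)

theorem prod_le {V : Fin 3 → ℝ} {X Y : ℝ} (hV : ∀ l, 0 ≤ V l) (hY : ∀ l, V l ≤ Y)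
    (hs : ∃ i j : Fin 3, i ≠ j ∧ V i ≤ X ∧ V j ≤ X) : V 0 * V 1 * V 2 ≤ X * X * Y := by
  obtain ⟨i, j, hij, hi, hj⟩ := hs
  have e1 : V 0 * V 1 * V 2 = V 0 * V 2 * V 1 := by ring
  have e2 : V 0 * V 1 * V 2 = V 1 * V 2 * V 0 := by ring
  have k01 : V 0 ≤ X → V 1 ≤ X → V 0 * V 1 * V 2 ≤ X * X * Y := fun a b =>
    p3 (hV 0) (hV 1) (hV 2) a b (hY 2)
  have k02 : V 0 ≤ X → V 2 ≤ X → V 0 * V 1 * V 2 ≤ X * X * Y := fun a b => by
    rw [e1]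
    exact p3 (hV 0) (hV 2) (hV 1) a b (hY 1)
  have k12 : V 1 ≤ X → V 2 ≤ X → V 0 * V 1 * V 2 ≤ X * X * Y := fun a b => by
    rw [e2]
    exact p3 (hV 1) (hV 2) (hV 0) a b (hY 0)
  fin_cases i <;> fin_cases j
  · exact absurd rfl hij
  · exact k01 hi hj
  · exact k02 hi hj
  · exact k01 hj hi
  · exact absurd rfl hij
  · exact k12 hi hj
  · exact k02 hj hi
  · exact k12 hj hi
  · exact absurd rfl hij

theorem sq_le {T x r : ℝ} (hT : 1 ≤ T) (hx0 : 0 ≤ x) (hx : x ≤ T ^ (1 + r)) :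
    (x / T) ^ 2 ≤ T ^ (2 * r) := by
  have hT0 : 0 < T := by linarith
  have h1 : x / T ≤ T ^ r := by
    rw [div_le_iff₀ hT0]
    refine hx.trans (le_of_eq ?_)
    rw [add_comm, Real.rpow_add hT0, Real.rpow_one]
  calc (x / T) ^ 2 ≤ (T ^ r) ^ 2 := pow_le_pow_left₀ (by positivity) h1 2
    _ = T ^ (2 * r) := by
      rw [← Real.rpow_natCast, ← Real.rpow_mul hT0.le]
      congr 1
      push_cast
      ring

theorem rr_bounds {T q : ℝ} (hT : 1 ≤ T) (hq1 : 1 ≤ q) (hq : q ≤ T ^ (1 / 100000 : ℝ))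
    {V : Fin 3 → ℝ} (hV1 : ∀ l, 1 ≤ V l) (hVL : ∀ l, V l ≤ q * Lx T)
    (hs : ∃ i j : Fin 3, i ≠ j ∧ V i ≤ q * T ^ (677 / 2000 : ℝ) ∧
      V j ≤ q * T ^ (677 / 2000 : ℝ)) :
    1 ≤ rr q T V ∧ rr q T V ≤ T ^ (12 / 25 : ℝ) := by
  have hT0 : 0 < T := by linarith
  have hV0 : ∀ l, 0 ≤ V l := fun l => by linarith [hV1 l]
  have hb1 : 1 ≤ bare T V := le_max_left _ _
  have hX : q * T ^ (677 / 2000 : ℝ) ≤ T ^ (1 / 100000 + 677 / 2000 : ℝ) := by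
    rw [Real.rpow_add hT0]
    gcongr
  have hY : q * Lx T ≤ T ^ (1 / 100000 + 277 / 500 : ℝ) := by
    unfold Lx
    rw [Real.rpow_add hT0]
    gcongr
  obtain ⟨i, j, hij, hi, hj⟩ := hs
  unfold rr
  split_ifs with hiso
  · -- isotropic
    have hq10 : q ^ 10 ≤ T ^ (10 / 100000 : ℝ) := by
      calc q ^ 10 ≤ (T ^ (1 / 100000 : ℝ)) ^ 10 := by gcongr
        _ = T ^ (10 / 100000 : ℝ) := by
          rw [← Real.rpow_natCast, ← Real.rpow_mul hT0.le]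
          congr 1
          norm_num
    have hall : ∀ l, V l ≤ T ^ (10 / 100000 + (1 / 100000 + 677 / 2000) : ℝ) := by
      intro l
      calc V l ≤ q ^ 10 * V i := hiso l i
        _ ≤ T ^ (10 / 100000 : ℝ) * T ^ (1 / 100000 + 677 / 2000 : ℝ) :=
          mul_le_mul hq10 (hi.trans hX) (hV0 i) (by positivity)
        _ = _ := by rw [← Real.rpow_add hT0]
    have hprod : V 0 * V 1 * V 2 ≤ T ^ (1 + (33 / 100000 + 31 / 2000) : ℝ) := by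
      refine (p3 (hV0 0) (hV0 1) (hV0 2) (hall 0) (hall 1) (hall 2)).trans (le_of_eq ?_)
      rw [← Real.rpow_add hT0, ← Real.rpow_add hT0]
      congr 1
      norm_num
    have h2 := sq_le hT (by have := hV0 0; have := hV0 1; have := hV0 2; positivity) hprod
    have hbare : bare T V ≤ T ^ (2 * (33 / 100000 + 31 / 2000) : ℝ) :=
      max_le (Real.one_le_rpow hT (by norm_num)) h2
    constructor
    · have h3 : 1 ≤ T ^ (1 / 50 : ℝ) := Real.one_le_rpow hT (by norm_num)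
      nlinarith
    · calc T ^ (1 / 50 : ℝ) * bare T V ≤
            T ^ (1 / 50 : ℝ) * T ^ (2 * (33 / 100000 + 31 / 2000) : ℝ) := by gcongr
        _ = T ^ (1 / 50 + 2 * (33 / 100000 + 31 / 2000) : ℝ) := by rw [← Real.rpow_add hT0]
        _ ≤ T ^ (12 / 25 : ℝ) := Real.rpow_le_rpow_of_exponent_le hT (by norm_num)
  · refine ⟨hb1, ?_⟩
    have hprod : V 0 * V 1 * V 2 ≤ T ^ (1 + (3 / 100000 + 231 / 1000) : ℝ) := by
      refine (prod_le hV0 (fun l => (hVL l).trans hY) ⟨i, j, hij, hi.trans hX,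
        hj.trans hX⟩).trans (le_of_eq ?_)
      rw [← Real.rpow_add hT0, ← Real.rpow_add hT0]
      congr 1
      norm_num
    have h2 := sq_le hT (by have := hV0 0; have := hV0 1; have := hV0 2; positivity) hprod
    refine max_le (Real.one_le_rpow hT (by norm_num)) (h2.trans ?_)
    exact Real.rpow_le_rpow_of_exponent_le hT (by norm_num)

/-! ### dyadic index -/

noncomputable def ix (h : Z6) (l : Fin 3) : ℕ := Nat.log 2 ⌊‖t3 (r3 h) l‖⌋₊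

theorem ix_spec {h : Z6} {l : Fin 3} (h1 : 1 ≤ ‖t3 (r3 h) l‖) :
    (2 : ℝ) ^ (ix h l) ≤ ‖t3 (r3 h) l‖ ∧ ‖t3 (r3 h) l‖ ≤ 2 * (2 : ℝ) ^ (ix h l) := by
  have h0 : ⌊‖t3 (r3 h) l‖⌋₊ ≠ 0 := by
    rw [Nat.ne_zero_iff_zero_lt, Nat.floor_pos]
    exact h1
  constructor
  · have h2 : (2 : ℝ) ^ (ix h l) ≤ (⌊‖t3 (r3 h) l‖⌋₊ : ℝ) := by
      have h3 := Nat.pow_log_le_self 2 h0
      unfold ix
      exact_mod_cast h3
    exact h2.trans (Nat.floor_le (norm_nonneg _))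
  · have h2 : (⌊‖t3 (r3 h) l‖⌋₊ : ℝ) + 1 ≤ 2 * (2 : ℝ) ^ (ix h l) := by
      have h3 : ⌊‖t3 (r3 h) l‖⌋₊ + 1 ≤ 2 * 2 ^ (ix h l) := by
        have h4 := Nat.lt_pow_succ_log_self (b := 2) (by norm_num) ⌊‖t3 (r3 h) l‖⌋₊
        unfold ix
        rw [pow_succ, mul_comm] at h4
        exact h4
      exact_mod_cast h3
    exact (Nat.lt_floor_add_one _).le.trans h2

theorem ix_lt {h : Z6} {l : Fin 3} {T : ℝ} (h1 : ‖t3 (r3 h) l‖ ≤ T) :
    ix h l < Nat.log 2 ⌊T⌋₊ + 1 := by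
  unfold ix
  exact Nat.lt_succ_of_le (Nat.log_mono_right (Nat.floor_mono h1))

theorem N_le {T Q : ℝ} (hT : 1 ≤ T) (hQ : 2 ≤ Q) (hl : Real.log T ≤ Q) :
    ((Nat.log 2 ⌊T⌋₊ + 1 : ℕ) : ℝ) ≤ 3 * Q := by
  have h0 : ⌊T⌋₊ ≠ 0 := by
    rw [Nat.ne_zero_iff_zero_lt, Nat.floor_pos]
    exact hT
  have h1 : (2 : ℝ) ^ (Nat.log 2 ⌊T⌋₊) ≤ T := by
    have h3 := Nat.pow_log_le_self 2 h0
    have h4 : (2 : ℝ) ^ (Nat.log 2 ⌊T⌋₊) ≤ (⌊T⌋₊ : ℝ) := by exact_mod_cast h3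
    exact h4.trans (Nat.floor_le (by linarith))
  have h2 := Real.log_le_log (by positivity) h1
  rw [Real.log_pow] at h2
  have h3 := Real.log_two_gt_d9
  have h4 : (0 : ℝ) ≤ (Nat.log 2 ⌊T⌋₊ : ℝ) := Nat.cast_nonneg _
  push_cast
  nlinarith

/-! ### sums and integrals -/

theorem sum_lint_le {α ι : Type} [MeasurableSpace α] (μ : Measure α) (s : Finset ι)
    (f : ι → α → ENNReal) : ∑ i ∈ s, ∫⁻ a, f i a ∂μ ≤ ∫⁻ a, ∑ i ∈ s, f i a ∂μ := by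
  classical
  induction s using Finset.induction_on with
  | empty => simp
  | insert i s hi ih =>
    rw [Finset.sum_insert hi]
    calc (∫⁻ a, f i a ∂μ) + ∑ j ∈ s, ∫⁻ a, f j a ∂μ ≤
          (∫⁻ a, f i a ∂μ) + ∫⁻ a, ∑ j ∈ s, f j a ∂μ := by gcongr
      _ ≤ ∫⁻ a, (f i a + ∑ j ∈ s, f j a) ∂μ := le_lintegral_add _ _
      _ = _ := by
        refine lintegral_congr fun a => ?_
        rw [Finset.sum_insert hi]

/-- one family -/
theorem fam_sum {T Q : ℝ} {cB cF : ℕ} (hT : 1 ≤ T) (hQ : 4 ≤ Q) (hcB : 1 ≤ cB)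
    (hlog : Real.log T ≤ Q) (hQB : Q ^ cB ≤ T ^ (1 / 100000 : ℝ))
    (hQF : (Q ^ cB) ^ cF ≤ T ^ (1 / 100000 : ℝ))
    (hBOX : ∀ (R₁ : ℝ) (h : Z6) (X : Finset Z6), 1 ≤ R₁ → R₁ ≤ T ^ (12 / 25 : ℝ) → h ≠ 0 →
      ‖r3 h‖ ≤ Q * Lx T → (∀ x ∈ X, Rg Q T (r3 h) (mid (r3 h) (r3 x))) →
      (X.card : ENNReal) ≤ ENNReal.ofReal (Q ^ cB * T ^ 6 / R₁) *
        ∫⁻ A in KM (Q ^ cB), ∑' v : Z6, volume {m : R6 | NR (Q ^ cB) T R₁ A (r3 h) (r3 v) m})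
    (hFXA : ∀ T Q : ℝ, 2 ≤ Q → Real.log T ≤ Q →
      Q ^ cF ≤ T ^ (1 / 100000 : ℝ) → ∀ (A : ℝ × ℝ × ℝ) (V : Fin 3 → ℝ) (H : Finset Z6), A ∈ KM Q →
      (∀ l, 1 ≤ V l) → (∀ l, V l ≤ Q * Lx T) →
      (∃ i j, i ≠ j ∧ V i ≤ Q * T ^ (677 / 2000 : ℝ) ∧ V j ≤ Q * T ^ (677 / 2000 : ℝ)) →
      (∀ h ∈ H, fam V h) →
      ∑ h ∈ H, ∑' v : Z6, volume {m : R6 | NR Q T (rr Q T V) A (r3 h) (r3 v) m} ≤
        ENNReal.ofReal (Q ^ cF * rr Q T V))
    (H : Finset Z6) (X : Z6 → Finset Z6) (i : Fin 3 → ℕ)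
    (h1 : ∀ h ∈ H, NZ h) (h2 : ∀ h ∈ H, V2 h ≤ T ^ (677 / 2000 : ℝ))
    (h3 : ∀ h ∈ H, ‖r3 h‖ ≤ 4 * Lx T)
    (h4 : ∀ h ∈ H, ∀ x ∈ X h, Rg Q T (r3 h) (mid (r3 h) (r3 x)))
    (h5 : ∀ h ∈ H, ix h = i) :
    ∑ h ∈ H, ((X h).card : ℝ) ≤ 8 * (Q ^ cB) ^ (cF + 4) * T ^ 6 := by
  have hT0 : 0 < T := by linarith
  have hQ0 : 0 < Q := by linarith
  have hL0 : 0 ≤ Lx T := by
    unfold Lx
    positivity
  obtain ⟨q, hq⟩ : ∃ q : ℝ, q = Q ^ cB := ⟨_, rfl⟩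
  have hqQ : Q ≤ q := by
    rw [hq]
    calc Q = Q ^ 1 := (pow_one Q).symm
      _ ≤ Q ^ cB := pow_le_pow_right₀ (by linarith) hcB
  have hq0 : 0 < q := by linarith
  rw [← hq] at hQB hQF hBOX ⊢
  rcases H.eq_empty_or_nonempty with hE | ⟨h0, hh0⟩
  · rw [hE, Finset.sum_empty]
    positivity
  obtain ⟨V, hV⟩ : ∃ V : Fin 3 → ℝ, V = fun l => (2 : ℝ) ^ (i l) := ⟨_, rfl⟩
  have hfam : ∀ h ∈ H, fam V h := by
    intro h hh l
    have g := ix_spec (one_le_t3 (h1 h hh) l)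
    rw [h5 h hh] at g
    rw [hV]
    exact g
  have hV1 : ∀ l, 1 ≤ V l := fun l => by
    rw [hV]
    exact one_le_pow₀ (by norm_num)
  have hVn : ∀ l, V l ≤ ‖t3 (r3 h0) l‖ := fun l => (hfam h0 hh0 l).1
  have hVL : ∀ l, V l ≤ q * Lx T := fun l =>
    ((hVn l).trans (norm_t3_le _ l)).trans ((h3 h0 hh0).trans
      (mul_le_mul_of_nonneg_right (by linarith) hL0))
  have hs : ∃ a b : Fin 3, a ≠ b ∧ V a ≤ q * T ^ (677 / 2000 : ℝ) ∧
      V b ≤ q * T ^ (677 / 2000 : ℝ) := by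
    obtain ⟨a, b, hab, ha, hb⟩ := two_small (h2 h0 hh0)
    have hB0 : 0 ≤ T ^ (677 / 2000 : ℝ) := by positivity
    have hle : T ^ (677 / 2000 : ℝ) ≤ q * T ^ (677 / 2000 : ℝ) := by nlinarith
    exact ⟨a, b, hab, ((hVn a).trans ha).trans hle, ((hVn b).trans hb).trans hle⟩
  obtain ⟨hr1, hr2⟩ := rr_bounds hT (by linarith) hQB hV1 hVL hs
  obtain ⟨R, hR⟩ : ∃ R : ℝ, R = rr q T V := ⟨_, rfl⟩
  rw [← hR] at hr1 hr2
  have hR0 : 0 < R := by linarith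
  have hkey : ∑ h ∈ H, ((X h).card : ENNReal) ≤
      ENNReal.ofReal (8 * q ^ (cF + 4) * T ^ 6) := by
    calc ∑ h ∈ H, ((X h).card : ENNReal) ≤
          ∑ h ∈ H, ENNReal.ofReal (q * T ^ 6 / R) *
            ∫⁻ A in KM q, ∑' v : Z6, volume {m : R6 | NR q T R A (r3 h) (r3 v) m} := by
          refine Finset.sum_le_sum fun h hh => ?_
          refine hBOX R h (X h) hr1 hr2 ?_ ?_ (h4 h hh)
          · intro h00
            have := (h1 h hh).1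
            rw [h00] at this
            exact this rfl
          · exact (h3 h hh).trans (mul_le_mul_of_nonneg_right hQ hL0)
      _ = ENNReal.ofReal (q * T ^ 6 / R) * ∑ h ∈ H,
            ∫⁻ A in KM q, ∑' v : Z6, volume {m : R6 | NR q T R A (r3 h) (r3 v) m} := by
          rw [Finset.mul_sum]
      _ ≤ ENNReal.ofReal (q * T ^ 6 / R) * ∫⁻ A in KM q, ∑ h ∈ H,
            ∑' v : Z6, volume {m : R6 | NR q T R A (r3 h) (r3 v) m} := by
          gcongr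
          exact sum_lint_le _ _ _
      _ ≤ ENNReal.ofReal (q * T ^ 6 / R) * ∫⁻ _ in KM q, ENNReal.ofReal (q ^ cF * R) := by
          refine mul_le_mul' le_rfl (setLIntegral_mono' (measurableSet_KM q) fun A hA => ?_)
          rw [hR]
          exact hFXA T q (by linarith) (hlog.trans hqQ) hQF A V H hA hV1 hVL hs hfam
      _ ≤ ENNReal.ofReal (q * T ^ 6 / R) * (ENNReal.ofReal (q ^ cF * R) *
            ENNReal.ofReal (8 * q ^ 3)) := by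
          rw [setLIntegral_const]
          gcongr
          exact vol_KM hq0
      _ = ENNReal.ofReal (8 * q ^ (cF + 4) * T ^ 6) := by
          rw [← ENNReal.ofReal_mul (by positivity), ← ENNReal.ofReal_mul (by positivity)]
          congr 1
          field_simp
          ring
  have h6 : ENNReal.ofReal (∑ h ∈ H, ((X h).card : ℝ)) = ∑ h ∈ H, ((X h).card : ENNReal) := by
    rw [ENNReal.ofReal_sum_of_nonneg (fun h _ => Nat.cast_nonneg _)]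
    refine Finset.sum_congr rfl fun h _ => ?_
    rw [ENNReal.ofReal_natCast]
  rw [← h6] at hkey
  exact (ENNReal.ofReal_le_ofReal_iff (by positivity)).mp hkey

/-- all large `T` -/
theorem large {η : ℝ} (hη : 0 < η) : ∃ T1 : ℝ, 1 ≤ T1 ∧ ∀ T : ℝ, T1 ≤ T →
    4 ≤ T ^ η ∧ Real.log T ≤ T ^ η := by
  have h1 := (tendsto_rpow_atTop hη).eventually_ge_atTop 4
  have h2 := (isLittleO_log_rpow_atTop hη).bound (c := 1) one_pos
  obtain ⟨a, ha⟩ := Filter.eventually_atTop.mp (h1.and h2)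
  refine ⟨max a 1, le_max_right _ _, fun T hT => ?_⟩
  obtain ⟨g1, g2⟩ := ha T ((le_max_left _ _).trans hT)
  refine ⟨g1, ?_⟩
  have hT1 : 1 ≤ T := (le_max_right _ _).trans hT
  rw [one_mul, Real.norm_eq_abs, Real.norm_eq_abs, abs_of_nonneg (Real.log_nonneg hT1),
    abs_of_nonneg (by positivity)] at g2
  exact g2

theorem fnn (hFUP : FUPeStmt) (hBOX : BOXStmt) (hFXA : FXAStmt) : FNNStmt := by
  obtain ⟨cB, hcB, hB⟩ := box_pos hBOX
  obtain ⟨cF, hF⟩ := hFXA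
  obtain ⟨S, hS⟩ : ∃ S : ℕ, S = cB * (cF + 4) + 4 := ⟨_, rfl⟩
  have hSpos : (0 : ℝ) < S := by
    rw [hS]
    positivity
  obtain ⟨η, hη⟩ : ∃ η : ℝ, η = min rho0 (1 / 100000) / S := ⟨_, rfl⟩
  have hmin : 0 < min rho0 (1 / 100000) := lt_min rho0_pos (by norm_num)
  have hη0 : 0 < η := by
    rw [hη]
    positivity
  have hηS : η * S = min rho0 (1 / 100000) := by
    rw [hη]
    field_simp
  obtain ⟨del1, hd1, hFU⟩ := hFUP η hη0
  obtain ⟨T1, hT1, hlarge⟩ := large hη0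
  refine ⟨del1, hd1, fun M hM e he p => ?_⟩
  obtain ⟨T0, hT0, hFU2⟩ := hFU M hM e he p
  refine ⟨216, max T0 T1, by norm_num, hT0.trans (le_max_left _ _), fun T hT W hW H hH => ?_⟩
  have hTT0 : T0 ≤ T := (le_max_left _ _).trans hT
  have hTT1 : T1 ≤ T := (le_max_right _ _).trans hT
  have hTone : 1 ≤ T := hT0.trans hTT0
  have hTpos : 0 < T := by linarith
  obtain ⟨hQ4, hlog⟩ := hlarge T hTT1
  have hpw := hFU2 T hTT0 W hW
  obtain ⟨Q, hQ⟩ : ∃ Q : ℝ, Q = T ^ η := ⟨_, rfl⟩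
  rw [← hQ] at hQ4 hlog hpw
  have hQ0 : 0 < Q := by linarith
  have hQpow : ∀ k : ℕ, Q ^ k = T ^ (η * k) := fun k => by
    rw [hQ, ← Real.rpow_natCast, ← Real.rpow_mul hTpos.le]
  have hsmall : ∀ k : ℕ, k ≤ S → Q ^ k ≤ T ^ (1 / 100000 : ℝ) := by
    intro k hk
    rw [hQpow]
    refine Real.rpow_le_rpow_of_exponent_le hTone ?_
    have h1 : η * k ≤ η * S := by
      have : (k : ℝ) ≤ S := by exact_mod_cast hk
      gcongr
    linarith [min_le_right rho0 (1 / 100000)]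
  have hQB : Q ^ cB ≤ T ^ (1 / 100000 : ℝ) := hsmall cB (by rw [hS]; nlinarith)
  have hQF : (Q ^ cB) ^ cF ≤ T ^ (1 / 100000 : ℝ) := by
    rw [← pow_mul]
    exact hsmall _ (by rw [hS]; nlinarith)
  have hfin : ∀ h : Z6, {x : Z6 | fx M T e p W h (r3 x) ≠ 0}.Finite := by
    intro h
    refine ((isCompact_closedBall (0 : Z6) (8 * T)).finite_of_discrete).subset ?_
    intro x hx
    have h1 := ((hpw h (r3 x)).2.2 hx).2.1
    rw [norm_r3] at h1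
    rw [mem_closedBall_zero_iff]
    exact h1
  obtain ⟨X, hX⟩ : ∃ X : Z6 → Finset Z6, X = fun h => (hfin h).toFinset := ⟨_, rfl⟩
  have hXm : ∀ h x, x ∈ X h ↔ fx M T e p W h (r3 x) ≠ 0 := by
    intro h x
    rw [hX]
    simp
  obtain ⟨Bd, hBd⟩ : ∃ Bd : ℝ, Bd = Q * (T ^ 4)⁻¹ := ⟨_, rfl⟩
  have hBd0 : 0 ≤ Bd := by
    rw [hBd]
    positivity
  have hone : ∀ h : Z6, ∑' x : Z6, fx M T e p W h (r3 x) ≤ Bd * ((X h).card : ℝ) := by
    intro h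
    rw [tsum_eq_sum (s := X h) (fun x hx => by
      by_contra h0
      exact hx ((hXm h x).mpr h0))]
    calc ∑ x ∈ X h, fx M T e p W h (r3 x) ≤ ∑ _x ∈ X h, Bd := by
          refine Finset.sum_le_sum fun x _ => ?_
          rw [hBd]
          exact (hpw h (r3 x)).2.1
      _ = Bd * ((X h).card : ℝ) := by
          rw [Finset.sum_const, nsmul_eq_mul, mul_comm]
  obtain ⟨H', hH'⟩ : ∃ H' : Finset Z6, H' = H.filter (fun h => (X h).Nonempty) := ⟨_, rfl⟩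
  have hH1 : ∀ h ∈ H', h ∈ H := fun h hh => by
    rw [hH'] at hh
    exact (Finset.mem_filter.mp hh).1
  have hH2 : ∀ h ∈ H', ‖r3 h‖ ≤ 4 * Lx T := fun h hh => by
    rw [hH'] at hh
    obtain ⟨x, hx⟩ := (Finset.mem_filter.mp hh).2
    exact ((hpw h (r3 x)).2.2 ((hXm h x).mp hx)).1
  have hsum1 : ∑ h ∈ H, ((X h).card : ℝ) = ∑ h ∈ H', ((X h).card : ℝ) := by
    rw [hH']
    refine (Finset.sum_filter_of_ne fun h _ h0 => ?_).symm
    rw [Nat.cast_ne_zero, Finset.card_ne_zero] at h0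
    exact h0
  obtain ⟨N, hN⟩ : ∃ N : ℕ, N = Nat.log 2 ⌊T⌋₊ + 1 := ⟨_, rfl⟩
  have hNQ : (N : ℝ) ≤ 3 * Q := by
    rw [hN]
    exact N_le hTone (by linarith) hlog
  have hLT : 4 * Lx T ≤ T := by
    have h1 : (4 : ℝ) ≤ T ^ (1 / 100000 : ℝ) := by
      have := hsmall 1 (by rw [hS]; omega)
      rw [pow_one] at this
      linarith
    calc 4 * Lx T ≤ T ^ (1 / 100000 : ℝ) * T ^ (277 / 500 : ℝ) := by
          unfold Lx
          gcongr
      _ = T ^ (1 / 100000 + 277 / 500 : ℝ) := by rw [← Real.rpow_add hTpos]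
      _ ≤ T ^ (1 : ℝ) := Real.rpow_le_rpow_of_exponent_le hTone (by norm_num)
      _ = T := Real.rpow_one T
  obtain ⟨I, hI⟩ : ∃ I : Finset (Fin 3 → ℕ),
      I = Fintype.piFinset (fun _ : Fin 3 => Finset.range N) := ⟨_, rfl⟩
  have hmaps : ∀ h ∈ H', ix h ∈ I := by
    intro h hh
    rw [hI, Fintype.mem_piFinset]
    intro l
    rw [Finset.mem_range, hN]
    exact ix_lt ((norm_t3_le _ l).trans ((hH2 h hh).trans hLT))
  have hIc : (I.card : ℝ) = (N : ℝ) ^ 3 := by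
    rw [hI, Fintype.card_piFinset]
    simp
  obtain ⟨B0, hB0⟩ : ∃ B0 : ℝ, B0 = 8 * (Q ^ cB) ^ (cF + 4) * T ^ 6 := ⟨_, rfl⟩
  have hB00 : 0 ≤ B0 := by
    rw [hB0]
    positivity
  have hsum2 : ∑ h ∈ H', ((X h).card : ℝ) ≤ (N : ℝ) ^ 3 * B0 := by
    rw [← Finset.sum_fiberwise_of_maps_to hmaps]
    calc ∑ i ∈ I, ∑ h ∈ H' with ix h = i, ((X h).card : ℝ) ≤ ∑ _i ∈ I, B0 := by
          refine Finset.sum_le_sum fun i _ => ?_
          rw [hB0]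
          refine fam_sum hTone hQ4 hcB hlog hQB hQF (hB T Q (by linarith) hTpos.le hQB) hF
            (H'.filter (fun h => ix h = i)) X i ?_ ?_ ?_ ?_ ?_
          · intro h hh
            exact (hH h (hH1 h (Finset.mem_filter.mp hh).1)).1
          · intro h hh
            exact (hH h (hH1 h (Finset.mem_filter.mp hh).1)).2
          · intro h hh
            exact hH2 h (Finset.mem_filter.mp hh).1
          · intro h _ x hx
            exact ((hpw h (r3 x)).2.2 ((hXm h x).mp hx)).2.2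
          · intro h hh
            exact (Finset.mem_filter.mp hh).2
      _ = (N : ℝ) ^ 3 * B0 := by
          rw [Finset.sum_const, nsmul_eq_mul, hIc]
  calc ∑ h ∈ H, ∑' x : Z6, fx M T e p W h (r3 x) ≤ ∑ h ∈ H, Bd * ((X h).card : ℝ) :=
        Finset.sum_le_sum fun h _ => hone h
    _ = Bd * ∑ h ∈ H', ((X h).card : ℝ) := by rw [← Finset.mul_sum, hsum1]
    _ ≤ Bd * ((3 * Q) ^ 3 * B0) := by
        gcongr
        refine hsum2.trans ?_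
        gcongr
    _ = 216 * (Q ^ S * T ^ 2) := by
        rw [hBd, hB0, hS, pow_add, ← pow_mul]
        field_simp
        ring
    _ ≤ 216 * Bx T := by
        gcongr
        unfold Bx
        rw [hQpow, hηS, Real.rpow_add hTpos, mul_comm]
        have h2 : T ^ (2 : ℝ) = T ^ 2 := by
          rw [← Real.rpow_natCast]
          norm_num
        rw [h2]
        gcongr
        exact min_le_left _ _

end H10

end Pool.Agent.F5H.BN
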