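import Pool.Agent.F5H.StmtsG

/-!
MP_f5cbfa_nt, squad F5H, block C, row C_I6, the intermediate value part: every pair `(A', th')` with
`A'` near `A` is `Psi A w` for a small `w`.
-/

set_option autoImplicit false

open MeasureTheory Complex ComplexConjugate

namespace Pool.Agent.F5H.BC.H10

open Pool.Agent.BTL Pool.Agent.F5S Pool.Agent.F5H Pool.Agent.F5H.BC Pool.Agent.F5.H58

theorem cont_ph3 (μ : ℂ) : Continuous (fun θ : ℝ => ph3 μ θ) := by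
  unfold ph3
  fun_prop

theorem abs_ph3_sub (μ : ℂ) (θ : ℝ) : |ph3 μ θ - θ| ≤ ‖μ‖ := by
  unfold ph3
  have e : θ - (μ * cexp (((-2 * θ : ℝ) : ℂ) * I)).im - θ =
      -(μ * cexp (((-2 * θ : ℝ) : ℂ) * I)).im := by ring
  rw [e, abs_neg]
  refine (abs_im_le_norm _).trans ?_
  rw [norm_mul, norm_exp_ofReal_mul_I, mul_one]

theorem abs_arg_le {μ : ℂ} (h : ‖μ‖ ≤ 1 / 8) : |arg (1 + μ)| ≤ 1 / 2 := by
  have h1 : |μ.re| ≤ 1 / 8 := (abs_re_le_norm μ).trans h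
  have h2 : |μ.im| ≤ 1 / 8 := (abs_im_le_norm μ).trans h
  have h3 := abs_le.1 h1
  have hre : 0 < (1 + μ).re := by
    rw [add_re, one_re]
    linarith [h3.1]
  have h4 : arg (1 + μ) = Real.arcsin ((1 + μ).im / ‖1 + μ‖) := by
    rw [arg, if_pos hre.le]
  have hn : 7 / 8 ≤ ‖1 + μ‖ := by
    have := norm_sub_norm_le (1 : ℂ) (-μ)
    rw [norm_one, norm_neg, sub_neg_eq_add] at this
    linarith
  obtain ⟨x, hx⟩ : ∃ x, x = (1 + μ).im / ‖1 + μ‖ := ⟨_, rfl⟩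
  have hxa : |x| ≤ 1 / 7 := by
    rw [hx, abs_div, abs_of_pos (by linarith : (0 : ℝ) < ‖1 + μ‖), div_le_iff₀ (by linarith),
      add_im, one_im, zero_add]
    linarith
  rw [h4, ← hx]
  have h5 := abs_le.1 hxa
  have hs : (1 : ℝ) / 7 ≤ Real.sin (1 / 2) := by
    have := Real.sin_gt_sub_cube (x := 1 / 2) (by norm_num)
    norm_num at this ⊢
    linarith
  have hpi := Real.pi_gt_three
  rw [abs_le]
  constructor
  · have : Real.arcsin (-(1 / 7)) ≤ Real.arcsin x := Real.arcsin_le_arcsin (by linarith [h5.1])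
    rw [Real.arcsin_neg] at this
    have h6 : Real.arcsin (1 / 7) ≤ 1 / 2 := by
      rw [Real.arcsin_le_iff_le_sin (by constructor <;> norm_num)
        (by constructor <;> linarith)]
      exact hs
    linarith
  · rw [Real.arcsin_le_iff_le_sin (by constructor <;> linarith [h5.1, h5.2])
      (by constructor <;> linarith)]
    linarith [h5.2]

/-- intermediate value theorem -/
theorem ivt {μ : ℂ} (h : ‖μ‖ ≤ 1 / 8) {t : ℝ} (ht : |t| ≤ Real.pi) :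
    ∃ θ : ℝ, |θ| ≤ 4 ∧ ph3 μ θ - arg (1 + μ) = t := by
  have hpi := Real.pi_lt_d2
  have ht1 := abs_le.1 ht
  have ha := abs_le.1 (abs_arg_le h)
  have hc : ContinuousOn (fun θ : ℝ => ph3 μ θ - arg (1 + μ)) (Set.Icc (-4) 4) :=
    ((cont_ph3 μ).sub continuous_const).continuousOn
  have h1 := abs_le.1 ((abs_ph3_sub μ (-4)).trans h)
  have h2 := abs_le.1 ((abs_ph3_sub μ 4).trans h)
  obtain ⟨θ, hθ, hθ'⟩ := intermediate_value_Icc (by norm_num : (-4 : ℝ) ≤ 4) hc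
    (⟨by linarith [h1.2, ha.1], by linarith [h2.1, ha.2]⟩ : t ∈ Set.Icc _ _)
  exact ⟨θ, abs_le.2 ⟨hθ.1, hθ.2⟩, hθ'⟩

/-- every `(A', t)` with `A'` near `A` is in the chart -/
theorem near_psi (che : CHEStmt) : ∃ C : ℝ, 1 ≤ C ∧ ∀ (A A' : ℝ × ℝ × ℝ) (Q t : ℝ), 1000 ≤ Q →
    A ∈ KM Q → ‖A' - A‖ ≤ 1 / (C * Q ^ 54) → |t| ≤ Real.pi →
    ∃ w : ℝ × (Fin 3 → ℝ), Psi A w = (A', t) ∧ |w.1 - 1| ≤ 1 / Q ^ 50 ∧
      ‖(w.2 0 : ℂ) + (w.2 1 : ℂ) * I‖ ≤ 1 / Q ^ 50 ∧ |w.2 2| ≤ 4 := by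
  obtain ⟨C, hC, h⟩ := che
  refine ⟨C, hC, ?_⟩
  intro A A' Q t hQ hA hAA ht
  have hQ0 : 0 < Q := by linarith
  have hQ1 : 1 ≤ Q := by linarith
  have hQ50 : 8 ≤ Q ^ 50 := by
    calc (8 : ℝ) ≤ Q := by linarith
      _ = Q ^ 1 := (pow_one Q).symm
      _ ≤ Q ^ 50 := pow_le_pow_right₀ hQ1 (by norm_num)
  have hd : 1 / Q ^ 50 ≤ 1 / 8 := one_div_le_one_div_of_le (by norm_num) hQ50
  have h1 : C * Q ^ 4 * ‖A' - A‖ ≤ 1 / Q ^ 50 := by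
    calc C * Q ^ 4 * ‖A' - A‖ ≤ C * Q ^ 4 * (1 / (C * Q ^ 54)) :=
          mul_le_mul_of_nonneg_left hAA (by positivity)
      _ = 1 / Q ^ 50 := by
          have hC0 : 0 < C := by linarith
          field_simp
  obtain ⟨lam, mu, e1, e2, e3⟩ := h A A' Q (1 / Q ^ 50) hQ1 hA (by positivity) hd h1
  obtain ⟨θ, hθ, e4⟩ := ivt (e3.trans hd) ht
  refine ⟨(lam, ![mu.re, mu.im, θ]), ?_, e2, ?_, hθ⟩
  · have e5 : (((![mu.re, mu.im, θ] : Fin 3 → ℝ) 0 : ℂ) +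
        ((![mu.re, mu.im, θ] : Fin 3 → ℝ) 1 : ℂ) * I) = mu := by
      show ((mu.re : ℂ) + (mu.im : ℂ) * I) = mu
      exact re_add_im mu
    unfold Psi
    rw [e5]
    exact Prod.ext e1.symm e4
  · show ‖(mu.re : ℂ) + (mu.im : ℂ) * I‖ ≤ 1 / Q ^ 50
    rw [re_add_im]
    exact e3

/-! ### periodicity and monotonicity of the target -/

theorem cexp_per (th : ℝ) : cexp (((th + 2 * Real.pi : ℝ) : ℂ) * I) = cexp ((th : ℂ) * I) := by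
  have e : ((th + 2 * Real.pi : ℝ) : ℂ) * I = (th : ℂ) * I + 2 * (Real.pi : ℂ) * I := by
    push_cast
    ring
  rw [e, Complex.exp_add, Complex.exp_two_pi_mul_I, mul_one]

theorem wG_per (T : ℝ) (H : Fin 3 → ℂ) (ep : Fin 3 → ℝ) (th : ℝ) :
    wG T H ep (th + 2 * Real.pi) = wG T H ep th := by
  funext l
  unfold wG
  rw [cexp_per]

theorem gd_per (Q T : ℝ) (H : Fin 3 → ℂ) (ep : Fin 3 → ℝ) (th : ℝ) :
    Gd Q T H ep (th + 2 * Real.pi) ↔ Gd Q T H ep th := by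
  unfold Gd
  rw [cexp_per, wG_per]

theorem tv_per (T : ℝ) (H : Fin 3 → ℂ) (ep : Fin 3 → ℝ) (th : ℝ) (B : ℝ × ℝ × ℝ) (y : ℝ) :
    tv T H ep (th + 2 * Real.pi) B y = tv T H ep th B y := by
  funext l
  simp only [tv, muG, yG, GG, mG, tG, nG, wG_per]

theorem bd_per (T c₁ c₂ : ℝ) (b : Fin 3 → ℝ) (H : Fin 3 → ℂ) (ep : Fin 3 → ℝ) (th : ℝ)
    (K : Fin 3 → ℂ) : BD T c₁ c₂ b H ep (th + 2 * Real.pi) K ↔ BD T c₁ c₂ b H ep th K := by
  unfold BD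
  simp only [tv_per, wG_per]

theorem kph_per (T : ℝ) (H : Fin 3 → ℂ) (ep : Fin 3 → ℝ) (th : ℝ) (K : Fin 3 → ℂ) :
    kph T H ep (th + 2 * Real.pi) K = kph T H ep th K := by
  simp only [kph, tG, nG, wG_per]

/-- `TgP` is periodic (the hypothesis of `PERStmt`) -/
theorem tgP_per (T Q : ℝ) (V : Fin 3 → ℝ) (k0 del : ℝ) (s : Bool × Bool) (h k : R6)
    (A : ℝ × ℝ × ℝ) (th : ℝ) : (A, th) ∈ TgP T Q V k0 del s h k ↔
      (A, th + 2 * Real.pi) ∈ TgP T Q V k0 del s h k := by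
  unfold TgP
  simp only [Set.mem_ofPred_eq, gd_per, bd_per, kph_per]

theorem tgP_inter (T Q : ℝ) (V : Fin 3 → ℝ) (k0 del : ℝ) (s : Bool × Bool) (h k : R6) :
    TgP T Q V k0 del s h k ∩ {a | a.2 ∈ Set.Ioc (-Real.pi) Real.pi} =
      Tgt T Q V k0 del s h k := by
  ext a
  unfold TgP Tgt
  simp only [Set.mem_inter_iff, Set.mem_ofPred_eq]
  tauto

theorem km_mono {Q Q' : ℝ} (hQ : 0 < Q) (h : Q ≤ Q') {A : ℝ × ℝ × ℝ} (hA : A ∈ KM Q) :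
    A ∈ KM Q' := by
  intro x
  have hn : 0 ≤ nr x := by unfold nr; positivity
  obtain ⟨h1, h2⟩ := hA x
  exact ⟨(div_le_div_of_nonneg_left hn hQ h).trans h1,
    h2.trans (mul_le_mul_of_nonneg_right h hn)⟩

theorem gd_mono {Q Q' T : ℝ} (hT : 0 ≤ T) (h : Q ≤ Q') {H : Fin 3 → ℂ} {ep : Fin 3 → ℝ} {th : ℝ}
    (hG : Gd Q T H ep th) : Gd Q' T H ep th := by
  obtain ⟨h1, h2, h3, h4⟩ := hG
  have hL : 0 ≤ Lx T := Real.rpow_nonneg hT _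
  have hR : 0 ≤ Rx T := Real.rpow_nonneg hT _
  refine ⟨fun l => ⟨(h1 l).1.trans (mul_le_mul_of_nonneg_right h (norm_nonneg _)),
    (h1 l).2.trans (mul_le_mul_of_nonneg_right h hL)⟩,
    fun l hl => (h2 l hl).trans (mul_le_mul_of_nonneg_right h (norm_nonneg _)),
    h3.trans (mul_le_mul_of_nonneg_right h hR),
    fun l m hlm => (h4 l m hlm).trans (mul_le_mul_of_nonneg_right h (abs_nonneg _))⟩

theorem bd_mono {T c₁ c₂ c₁' c₂' : ℝ} (hT : 0 ≤ T) (h1 : c₁ ≤ c₁') (h2 : c₂ ≤ c₂')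
    {b b' : Fin 3 → ℝ} (hb : ∀ l, b l ≤ b' l) {H : Fin 3 → ℂ} {ep : Fin 3 → ℝ} {th : ℝ}
    {K : Fin 3 → ℂ} (h : BD T c₁ c₂ b H ep th K) : BD T c₁' c₂' b' H ep th K := by
  obtain ⟨k1, k2, k3, k4, k5, k6⟩ := h
  have e1 : c₁ * T ≤ c₁' * T := mul_le_mul_of_nonneg_right h1 hT
  have e2 : c₂ * T ≤ c₂' * T := mul_le_mul_of_nonneg_right h2 hT
  exact ⟨k1.trans e1, k2.trans e1, k3.trans e1, k4.trans h1, k5.trans e2,
    fun l => (k6 l).trans (hb l)⟩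

/-- the target is monotone in `Q` -/
theorem tgt_mono {T Q Q' : ℝ} (hT : 0 ≤ T) (hQ : 0 < Q) (h : Q ≤ Q') {V : Fin 3 → ℝ}
    (hV : ∀ l, 0 ≤ V l) {k0 del : ℝ} (hk : 0 < k0) (hd : 0 ≤ del) (s : Bool × Bool) (h' k : R6) :
    Tgt T Q V k0 del s h' k ⊆ Tgt T Q' V k0 del s h' k := by
  rintro a ⟨a1, a2, a3, a4, a5, a6, a7⟩
  refine ⟨km_mono hQ h a1, a2, fun l => ⟨(a3 l).1.trans (mul_le_mul_of_nonneg_right h
    (norm_nonneg _)), (a3 l).2.trans (mul_le_mul_of_nonneg_right h (hV l))⟩, gd_mono hT h a4,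
    a5.trans (mul_le_mul_of_nonneg_right h hk.le), bd_mono hT h
      (div_le_div_of_nonneg_right h hk.le) (fun l => mul_le_mul_of_nonneg_right h (hV l)) a6,
    a7.trans (mul_le_mul_of_nonneg_right h (by positivity))⟩

end Pool.Agent.F5H.BC.H10
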