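import Pool.Agent.F5H.StmtsA

/-!
Squad F5H, row A_SEC: the bound for the second moment.
-/

set_option autoImplicit false

open MeasureTheory Filter Topology

namespace Pool.Agent.F5H.H10

open Pool.Agent.BTL Pool.Agent.F5S

theorem adm_mono {T d d' : ℝ} {W : R6 → ℝ} (hT : 1 ≤ T) (hd : d ≤ d') (h : Adm T d W) :
    Adm T d' W := by
  obtain ⟨h1, h2, h3, h4⟩ := h
  have hT0 : 0 < T := by linarith
  refine ⟨h1, h2, ?_, ?_⟩
  · intro c hc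
    obtain ⟨g1, g2, g3, g4⟩ := h3 c hc
    have hle : T ^ 2 / T ^ d' ≤ T ^ 2 / T ^ d := by
      apply div_le_div_of_nonneg_left (by positivity) (Real.rpow_pos_of_pos hT0 _)
      exact Real.rpow_le_rpow_of_exponent_le hT hd
    exact ⟨g1, hle.trans g2, hle.trans g3, hle.trans g4⟩
  · intro c c'
    refine (h4 c c').trans ?_
    apply mul_le_mul_of_nonneg_right _ (norm_nonneg _)
    exact Real.rpow_le_rpow_of_exponent_le hT (by linarith)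

theorem sec (hV : VAEStmt) (hA : AVGStmt) (hS : SUMStmt) (hDZ : DZStmt) (hN : NStmt)
    (hM : MStmt) (hK : K0Stmt) (hX : XStmt) : SECStmt := by
  classical
  obtain ⟨d1, hd1, H1⟩ := hDZ
  obtain ⟨d2, hd2, H2⟩ := hN
  obtain ⟨d3, hd3, H3⟩ := hM
  obtain ⟨d4, hd4, H4⟩ := hK
  obtain ⟨d5, hd5, H5⟩ := hX
  refine ⟨min (min (min d1 d2) (min d3 d4)) (min d5 (1 / 4)), ?_, ?_, ?_⟩
  · simp only [lt_min_iff]
    exact ⟨⟨⟨hd1, hd2⟩, hd3, hd4⟩, hd5, by norm_num⟩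
  · refine lt_of_le_of_lt ((min_le_right _ _).trans (min_le_right _ _)) (by norm_num)
  intro M hM1 e he p
  obtain ⟨C1, T1, hC1, hT1, K1⟩ := H1 M hM1 e he p
  obtain ⟨C2, T2, hC2, hT2, K2⟩ := H2 M hM1 e he p
  obtain ⟨C3, T3, hC3, hT3, K3⟩ := H3 M hM1 e he p
  obtain ⟨C4, T4, hC4, hT4, K4⟩ := H4 M hM1 e he p
  obtain ⟨C5, T5, hC5, hT5, K5⟩ := H5 M hM1 e he p
  refine ⟨C1 + C2 + C3 + C4 + 2 * C5, max (max T1 T2) (max (max T3 T4) T5), by linarith,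
    hT1.trans ((le_max_left _ _).trans (le_max_left _ _)), ?_⟩
  intro T hTT W hW
  have k1 : T1 ≤ T := ((le_max_left _ _).trans (le_max_left _ _)).trans hTT
  have k2 : T2 ≤ T := ((le_max_right _ _).trans (le_max_left _ _)).trans hTT
  have k3 : T3 ≤ T := ((le_max_left _ _).trans ((le_max_left _ _).trans (le_max_right _ _))).trans hTT
  have k4 : T4 ≤ T := ((le_max_right _ _).trans ((le_max_left _ _).trans (le_max_right _ _))).trans hTT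
  have k5 : T5 ≤ T := ((le_max_right _ _).trans (le_max_right _ _)).trans hTT
  have hT : 1 ≤ T := hT1.trans k1
  have hT0 : 0 < T := by linarith
  have hL : 0 < Lx T := Real.rpow_pos_of_pos hT0 _
  have hR : 0 < Rx T := Real.rpow_pos_of_pos hT0 _
  have hLT : Lx T ≤ T := by
    have := Real.rpow_le_rpow_of_exponent_le hT (show (277 / 500 : ℝ) ≤ 1 by norm_num)
    rw [Real.rpow_one] at this
    exact this
  have w1 := K1 T k1 W (adm_mono hT ((min_le_left _ _).trans ((min_le_left _ _).trans (min_le_left _ _))) hW)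
  have w2 := K2 T k2 W (adm_mono hT ((min_le_left _ _).trans ((min_le_left _ _).trans (min_le_right _ _))) hW)
  have w3 := K3 T k3 W (adm_mono hT ((min_le_left _ _).trans ((min_le_right _ _).trans (min_le_left _ _))) hW)
  have w4 := K4 T k4 W (adm_mono hT ((min_le_left _ _).trans ((min_le_right _ _).trans (min_le_right _ _))) hW)
  have w5 := K5 T k5 W (adm_mono hT ((min_le_right _ _).trans (min_le_left _ _)) hW)
  obtain ⟨hWm, hW01, hWg, -⟩ := hW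
  have hWn : ∀ c, W c ≠ 0 → nle (2 * T) c := fun c hc => (hWg c hc).1
  obtain ⟨ν₁, hν₁⟩ : ∃ ν₁ : Measure R6, ν₁ =
      ∑ t ∈ ball (4 * T) ×ˢ (ball (4 * T) ×ˢ ball (4 * T)), Measure.dirac (r3 t) := ⟨_, rfl⟩
  obtain ⟨ν₂, hν₂⟩ : ∃ ν₂ : Measure R6, ν₂ = volume.restrict (Metric.closedBall 0 (4 * T)) := ⟨_, rfl⟩
  have i1 : IsFiniteMeasure ν₁ := by
    rw [hν₁]
    infer_instance
  have i2 : IsFiniteMeasure ν₂ := by
    rw [hν₂]
    exact ⟨by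
      rw [Measure.restrict_apply_univ]
      exact measure_closedBall_lt_top⟩
  have hVA : ∀ A, VA T (Lx T) (Rx T) e p W A = Lx T ^ 6 * Rx T *
      ((∫ z : R6 × R6, FA (Lx T) (Rx T) e p W A z.1 z.2 ∂(ν₁.prod ν₁)) -
      2 * (∫ z : R6 × R6, FA (Lx T) (Rx T) e p W A z.1 z.2 ∂(ν₁.prod ν₂)) +
      ∫ z : R6 × R6, FA (Lx T) (Rx T) e p W A z.1 z.2 ∂(ν₂.prod ν₂)) := fun A =>
    (hV T (Lx T) (Rx T) e hT0 hL (by linarith) hR he p W hWm hW01 hWn A ν₁ ν₂ hν₁ hν₂).2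
  obtain ⟨g11, e11⟩ := hA M (Lx T) (Rx T) e hM1 hL hR he p W hWm hW01 (ν₁.prod ν₁)
  obtain ⟨g12, e12⟩ := hA M (Lx T) (Rx T) e hM1 hL hR he p W hWm hW01 (ν₁.prod ν₂)
  obtain ⟨g22, e22⟩ := hA M (Lx T) (Rx T) e hM1 hL hR he p W hWm hW01 (ν₂.prod ν₂)
  have hfun : (fun A => chK M A * VA T (Lx T) (Rx T) e p W A) = fun A => Lx T ^ 6 * Rx T *
      (((chK M A * ∫ z : R6 × R6, FA (Lx T) (Rx T) e p W A z.1 z.2 ∂(ν₁.prod ν₁)) -
      2 * (chK M A * ∫ z : R6 × R6, FA (Lx T) (Rx T) e p W A z.1 z.2 ∂(ν₁.prod ν₂))) +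
      (chK M A * ∫ z : R6 × R6, FA (Lx T) (Rx T) e p W A z.1 z.2 ∂(ν₂.prod ν₂))) := by
    funext A
    rw [hVA A]
    ring
  have g12' : Integrable (fun A => 2 * (chK M A * ∫ z : R6 × R6, FA (Lx T) (Rx T) e p W A z.1 z.2 ∂(ν₁.prod ν₂))) :=
    g12.const_mul 2
  have gs : Integrable (fun A => (chK M A * ∫ z : R6 × R6, FA (Lx T) (Rx T) e p W A z.1 z.2 ∂(ν₁.prod ν₁)) -
      2 * (chK M A * ∫ z : R6 × R6, FA (Lx T) (Rx T) e p W A z.1 z.2 ∂(ν₁.prod ν₂))) := g11.sub g12'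
  refine ⟨?_, ?_⟩
  · rw [hfun]
    exact (gs.add g22).const_mul _
  rw [hfun, integral_const_mul, integral_add gs g22,
    integral_sub g11 g12', integral_const_mul, e11, e12, e22]
  obtain ⟨⟨H, s11⟩, s12, s22⟩ := hS M T (Lx T) (Rx T) e hM1 hT0 hL hLT hR he p W hWm hW01 hWn ν₁ ν₂
    hν₁ hν₂
  rw [s11, s12, s22]
  have hpos : 0 ≤ Lx T ^ 6 * Rx T := by positivity
  apply mul_le_mul_of_nonneg_left _ hpos
  -- the split
  set Sg : Z6 → ℝ := fun h => ∑' x : Z6, fx M T e p W h (r3 x) with hSg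
  set Ig : Z6 → ℝ := fun h => ∫ x, fx M T e p W h x with hIg
  have hH : ∑ h ∈ H, ∑' x : Z6, FF M (Lx T) (Rx T) e p W (r3 x) (r3 x + r3 h) = ∑ h ∈ H, Sg h := rfl
  have a1 : ∑ h ∈ H.filter (fun h => ¬ NZ h), Sg h ≤ C1 * Bx T :=
    w1 (H.filter (fun h => ¬ NZ h)) (fun h hh => (Finset.mem_filter.mp hh).2)
  have a2 : ∑ h ∈ (H.filter NZ).filter (fun h => V2 h ≤ T ^ (677 / 2000 : ℝ)), Sg h ≤ C2 * Bx T :=
    w2 _ (fun h hh => ⟨(Finset.mem_filter.mp (Finset.mem_filter.mp hh).1).2, (Finset.mem_filter.mp hh).2⟩)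
  have a3 : ∑ h ∈ (H.filter NZ).filter (fun h => ¬ V2 h ≤ T ^ (677 / 2000 : ℝ)), |Sg h - Ig h| ≤ C3 * Bx T :=
    w3 _ (fun h hh => ⟨(Finset.mem_filter.mp (Finset.mem_filter.mp hh).1).2,
      not_le.mp (Finset.mem_filter.mp hh).2⟩)
  have a4 : ∑ h ∈ (H.filter NZ).filter (fun h => ¬ V2 h ≤ T ^ (677 / 2000 : ℝ)), Ig h ≤
      (∫ z : R6 × R6, Fx M T e p W z.1 z.2) + C4 * Bx T := w4 _
  have a34 : ∑ h ∈ (H.filter NZ).filter (fun h => ¬ V2 h ≤ T ^ (677 / 2000 : ℝ)), Sg h ≤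
      (∑ h ∈ (H.filter NZ).filter (fun h => ¬ V2 h ≤ T ^ (677 / 2000 : ℝ)), |Sg h - Ig h|) +
      ∑ h ∈ (H.filter NZ).filter (fun h => ¬ V2 h ≤ T ^ (677 / 2000 : ℝ)), Ig h := by
    rw [← Finset.sum_add_distrib]
    apply Finset.sum_le_sum
    intro h _
    have := le_abs_self (Sg h - Ig h)
    linarith
  have b1 : ∑ h ∈ H, Sg h = ∑ h ∈ H.filter NZ, Sg h + ∑ h ∈ H.filter (fun h => ¬ NZ h), Sg h :=
    (Finset.sum_filter_add_sum_filter_not H NZ Sg).symm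
  have b2 : ∑ h ∈ H.filter NZ, Sg h = ∑ h ∈ (H.filter NZ).filter (fun h => V2 h ≤ T ^ (677 / 2000 : ℝ)), Sg h +
      ∑ h ∈ (H.filter NZ).filter (fun h => ¬ V2 h ≤ T ^ (677 / 2000 : ℝ)), Sg h :=
    (Finset.sum_filter_add_sum_filter_not (H.filter NZ) _ Sg).symm
  have c5 : (∫ z : R6 × R6, FF M (Lx T) (Rx T) e p W z.1 z.2) ≤
      (∑' x : Z6, ∫ y, FF M (Lx T) (Rx T) e p W (r3 x) y) + C5 * Bx T := w5
  have c4 : ∑ h ∈ (H.filter NZ).filter (fun h => ¬ V2 h ≤ T ^ (677 / 2000 : ℝ)), Ig h ≤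
      (∫ z : R6 × R6, FF M (Lx T) (Rx T) e p W z.1 z.2) + C4 * Bx T := a4
  rw [hH, b1, b2]
  nlinarith [a1, a2, a3, a34, c4, c5]

end Pool.Agent.F5H.H10
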